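import Pool.Agent.Lib.MP_a7239a_co.W2.HARB
import Pool.Agent.Lib.MP_a7239a_co.RN.Defs

/-!
# W2, module SOLQ: cells with elements of order `p ^ j` in their groups solve the cell problem
-/

set_option autoImplicit false

universe u

open Finset

namespace Pool.Agent.Lib.MPa7239a.W2

open Pool.Agent.Lib.MPa7239a.RN (HW Sol)

/-- the subgroup `{g ∈ e G | q g = 0}` -/
def Yq (G : Type u) [AddCommGroup G] (e q : ℕ) : AddSubgroup G :=
  (nsmulAddMonoidHom (α := G) e).range ⊓ (nsmulAddMonoidHom (α := G) q).ker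

theorem mem_Yq {G : Type u} [AddCommGroup G] {e q : ℕ} {g : G} :
    g ∈ Yq G e q ↔ (∃ u, e • u = g) ∧ q • g = 0 := Iff.rfl

/-- a choice of `q` pairs (cell, number) gives a solution of the cell problem -/
theorem sol_of {G : Type u} [AddCommGroup G] {n q f : ℕ} (hn : n = q * f) (hf : 1 ≤ f) {N : ℕ}
    (x : Fin N → G) (H : Fin N → AddSubgroup G) (m : Fin N → ℕ) (W : Finset (Fin N))
    (T : Finset (Σ _ : Fin N, ℕ)) (hTI : T ⊆ W.sigma fun c => range (m c / f)) (hT : #T = q)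
    (hsum : ∑ i ∈ T, f • x i.1 ∈ AddSubgroup.closure {y | ∃ i ∈ T, y ∈ H i.1}) :
    Sol n x H m W := by
  classical
  set s : Fin N → ℕ := fun c => #(T.filter fun i => i.1 = c) with hs
  have hTW : ∀ i ∈ T, i.1 ∈ W := fun i hi => (mem_sigma.1 (hTI hi)).1
  have hs1 : ∀ c, s c ≤ m c / f := by
    intro c
    calc s c ≤ #((range (m c / f)).image fun k => (⟨c, k⟩ : Σ _ : Fin N, ℕ)) := by
          refine card_le_card fun i hi => ?_
          obtain ⟨h1, h2⟩ := mem_filter.1 hi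
          rw [mem_image]
          have h3 := (mem_sigma.1 (hTI h1)).2
          subst h2
          exact ⟨i.2, h3, rfl⟩
      _ ≤ #(range (m c / f)) := card_image_le
      _ = m c / f := card_range _
  have hs2 : ∀ c, c ∉ W → s c = 0 := by
    intro c hc
    rw [hs]
    simp only [card_eq_zero]
    refine filter_eq_empty_iff.2 fun i hi h1 => hc (h1 ▸ hTW i hi)
  have hs3 : ∑ c, s c = q := by
    rw [← hT]
    exact (card_eq_sum_card_fiberwise fun i _ => mem_coe.2 (mem_univ (i.1))).symm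
  refine ⟨fun c => f * s c, fun c => ?_, fun c hc => ?_, ?_, ?_⟩
  · calc f * s c ≤ f * (m c / f) := Nat.mul_le_mul_left _ (hs1 c)
      _ ≤ m c := Nat.mul_div_le _ _
  · show f * s c = 0
    rw [hs2 c hc, mul_zero]
  · rw [← mul_sum, hs3, hn, mul_comm]
  · have h1 : ∑ c, (f * s c) • x c = ∑ i ∈ T, f • x i.1 := by
      rw [← sum_fiberwise_of_maps_to (s := T) (t := univ) (g := fun i => i.1)
        (fun i _ => mem_univ _)]
      refine sum_congr rfl fun c _ => ?_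
      rw [sum_congr rfl (fun i hi => by rw [(mem_filter.1 hi).2] :
        ∀ i ∈ T.filter (fun i => i.1 = c), f • x i.1 = f • x c), sum_const, smul_smul, mul_comm]
    rw [h1]
    refine (AddSubgroup.closure_le _).2 ?_ hsum
    rintro y ⟨i, hi, hy⟩
    have h4 : i.1 ∈ univ.filter fun c => f * s c ≠ 0 := by
      rw [mem_filter]
      refine ⟨mem_univ _, ?_⟩
      have h5 : 0 < s i.1 := card_pos.2 ⟨i, mem_filter.2 ⟨hi, rfl⟩⟩
      exact (Nat.mul_pos hf h5).ne'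
    exact (le_iSup₂ (f := fun c (_ : c ∈ univ.filter fun c => f * s c ≠ 0) => H c) i.1 h4) hy

theorem solq {p r B : ℕ} (hp : 1 ≤ p) (hB : Comp.{u, 0} p r B) (j : ℕ) {n e f : ℕ}
    (hn : n = p ^ j * f) (hf : 1 ≤ f) (G : Type u) [AddCommGroup G] [Finite G]
    (hG : ∀ g : G, n • g = 0)
    (hrank : Nat.card {g : G // (∃ u, e • u = g) ∧ p • g = 0} ≤ p ^ r) {N : ℕ}
    (x : Fin N → G) (H : Fin N → AddSubgroup G) (m : Fin N → ℕ) (W : Finset (Fin N))
    (hx : ∀ c, ∃ u, e • u = f • x c)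
    (hH : ∀ c ∈ W, ∃ h ∈ H c, (∃ u, e • u = h) ∧ p ^ j • h = 0 ∧ (j = 0 ∨ p ^ (j - 1) • h ≠ 0))
    (hm : B * ∑ i ∈ range j, p ^ i + 1 ≤ ∑ c ∈ W, m c / f) : Sol n x H m W := by
  classical
  -- the elements
  have hh : ∀ c, ∃ h : G, ((∃ u, e • u = h) ∧ p ^ j • h = 0) ∧
      (c ∈ W → h ∈ H c ∧ (j = 0 ∨ p ^ (j - 1) • h ≠ 0)) := by
    intro c
    by_cases hc : c ∈ W
    · obtain ⟨h, h1, h2, h3, h4⟩ := hH c hc
      exact ⟨h, ⟨h2, h3⟩, fun _ => ⟨h1, h4⟩⟩
    · exact ⟨0, ⟨⟨0, smul_zero _⟩, smul_zero _⟩, fun h => absurd h hc⟩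
  choose h hhY hhW using hh
  set Y := Yq G e (p ^ j) with hY
  have hxY : ∀ c, f • x c ∈ Y := fun c => mem_Yq.2 ⟨hx c, by
    rw [smul_smul, ← hn]
    exact hG _⟩
  set I : Finset (Σ _ : Fin N, ℕ) := W.sigma fun c => range (m c / f) with hI
  have hIc : #I = ∑ c ∈ W, m c / f := by
    rw [hI, card_sigma]
    exact sum_congr rfl fun c _ => card_range _
  obtain ⟨T, hTI, hT, hsum⟩ := harb hp hB j Y
    (fun y => Subtype.ext (mem_Yq.1 y.2).2)
    (by
      refine le_trans ?_ hrank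
      refine Nat.card_le_card_of_injective
        (fun z : {y : Y // p • y = 0} => (⟨z.1.1, (mem_Yq.1 z.1.2).1,
          congrArg Subtype.val z.2⟩ : {g : G // (∃ u, e • u = g) ∧ p • g = 0})) ?_
      intro z z' hz
      have h3 : z.1.1 = z'.1.1 :=
        congrArg (fun t : {g : G // (∃ u, e • u = g) ∧ p • g = 0} => (t : G)) hz
      exact Subtype.ext (Subtype.ext h3))
    (Σ _ : Fin N, ℕ) (fun i => ⟨f • x i.1, hxY i.1⟩) (fun i => ⟨h i.1, hhY i.1⟩) I
    (by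
      intro i hi
      have h1 : i.1 ∈ W := (mem_sigma.1 hi).1
      rcases (hhW i.1 h1).2 with h2 | h2
      · exact Or.inl h2
      · right
        intro h3
        exact h2 (congrArg Subtype.val h3))
    (by rw [hIc]; exact hm)
  refine sol_of hn hf x H m W T hTI hT ?_
  have h2 : ((∑ i ∈ T, (⟨f • x i.1, hxY i.1⟩ : Y) : Y) : G) = ∑ i ∈ T, f • x i.1 := by
    rw [AddSubgroup.val_finsetSum]
  rw [← h2]
  have h3 : AddSubgroup.closure ((fun i : (Σ _ : Fin N, ℕ) => (⟨h i.1, hhY i.1⟩ : Y)) ''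
      (T : Set (Σ _ : Fin N, ℕ))) ≤
      (AddSubgroup.closure {y | ∃ i ∈ T, y ∈ H i.1}).comap Y.subtype := by
    rw [AddSubgroup.closure_le]
    rintro _ ⟨i, hi, rfl⟩
    show h i.1 ∈ AddSubgroup.closure {y | ∃ i ∈ T, y ∈ H i.1}
    have hi' : i ∈ T := mem_coe.1 hi
    exact AddSubgroup.subset_closure ⟨i, hi', (hhW i.1 (mem_sigma.1 (hTI hi')).1).1⟩
  exact h3 hsum

end Pool.Agent.Lib.MPa7239a.W2
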