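import Pool.Agent.Lib.MP_a7239a_co.W2.DECOC
import Pool.Agent.Lib.MP_a7239a_co.W2.SOLQ
import Pool.Agent.Lib.MP_a7239a_co.RN.ASSEMN

/-!
# W2, module ASM: every large set gives a cell problem; the upper bound for `p`-groups
-/

set_option autoImplicit false

universe u

open Finset
open scoped Pointwise

namespace Pool.Agent.Lib.MPa7239a.W2

open Pool.Agent.Lib.MPa7239a.GC (Hit)
open Pool.Agent.Lib.MPa7239a.RN

/-- every set of `(c₀ + ε) n` elements gives a cell problem of total size `(c₀ + ε / 2) n`, with at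
most `Kmax` cells and groups of at least `δ n` elements -/
theorem assem (R : ℕ) (hR : 1 ≤ R) (C : ℕ) (ε' : ℝ) (hε'0 : 0 < ε') (hε'1 : ε' ≤ 1) :
    ∃ (Kmax : ℕ) (δ : ℝ), 0 < δ ∧ ∃ n₀ : ℕ, ∀ n : ℕ, n₀ ≤ n →
    ∀ (G : Type u) [AddCommGroup G] [Finite G], (∀ g : G, n • g = 0) → Nat.card G ≤ n ^ R →
    ∀ c₀ : ℝ, 0 ≤ c₀ → c₀ + 2 ≤ C →
    ∀ A : Finset G, (c₀ + ε') * n ≤ #A → ∃ K ≤ Kmax, ∃ (x : Fin K → G) (H : Fin K → AddSubgroup G)
      (m : Fin K → ℕ) (W : Finset (Fin K)), (∀ c ∈ W, δ * n ≤ Nat.card (H c)) ∧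
      (c₀ + ε' / 2) * n ≤ ∑ c ∈ W, (m c : ℝ) ∧ (Sol n x H m W → Hit A n 0) := by
  classical
  -- parameters
  let η : ℕ → ℝ := fun K => ε' / (100 * (K + 1))
  have hη : ∀ K, 0 < η K := fun K => by
    show 0 < ε' / (100 * ((K : ℝ) + 1))
    positivity
  choose F₀ hF₀ using fun K : ℕ => sol_hit.{u} K (η K) (hη K)
  obtain ⟨e, he⟩ := exists_nat_ge (100 / ε')
  have he0 : (0 : ℝ) < e := lt_of_lt_of_le (by positivity) he
  have he1 : 1 ≤ e := by exact_mod_cast he0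
  obtain ⟨Kmax, n₁, hdec⟩ := decoC.{u} R hR e he1 C F₀
  obtain ⟨n₃, hn₃⟩ := exists_nat_ge (100 * ((Kmax : ℝ) + 1) / ε')
  refine ⟨Kmax, η Kmax, hη Kmax, max n₁ (max n₃ 1), fun n hn G _ _ hG hcardN c₀ hc₀ hcC A hA => ?_⟩
  have hn1 : n₁ ≤ n := (le_max_left _ _).trans hn
  have hn3 : n₃ ≤ n := (le_max_left _ _).trans ((le_max_right _ _).trans hn)
  have hn4 : 1 ≤ n := (le_max_right _ _).trans ((le_max_right _ _).trans hn)
  have hnR : (1 : ℝ) ≤ n := by exact_mod_cast hn4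
  have hn0 : (0 : ℝ) < n := by linarith
  have hn3R : 100 * ((Kmax : ℝ) + 1) / ε' ≤ n := hn₃.trans (by exact_mod_cast hn3)
  -- a subset of the right size
  set s : ℕ := ⌈(c₀ + ε') * n⌉₊ with hs
  have hs1 : (c₀ + ε') * n ≤ s := Nat.le_ceil _
  have hs2 : (s : ℝ) ≤ (c₀ + ε') * n + 1 := (Nat.ceil_lt_add_one (by positivity)).le
  have hsA : s ≤ #A := by
    rw [hs, Nat.ceil_le]
    exact hA
  obtain ⟨A', hA'A, hA'⟩ := Finset.exists_subset_card_eq hsA
  have hs8 : s ≤ C * n := by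
    have : (s : ℝ) ≤ C * n := by
      calc (s : ℝ) ≤ (c₀ + ε') * n + 1 := hs2
        _ ≤ (c₀ + 1) * n + n := by gcongr
        _ = (c₀ + 2) * n := by ring
        _ ≤ C * n := by gcongr
    exact_mod_cast this
  obtain ⟨K, hK, B, x, H, q, hBA, hBd, hBt, hBq⟩ :=
    hdec n hn1 G hG hcardN A' (by rw [hA']; exact hs8)
  rw [hA'] at hBt
  -- facts on `η K`
  have hKR : (K : ℝ) ≤ Kmax := by exact_mod_cast hK
  have hηK : η K * (100 * ((K : ℝ) + 1)) = ε' := by
    show ε' / (100 * ((K : ℝ) + 1)) * (100 * ((K : ℝ) + 1)) = ε'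
    field_simp
  have hηn : 1 ≤ η K * n := by
    have h1 : 100 * ((K : ℝ) + 1) / ε' ≤ n := le_trans (by gcongr) hn3R
    rw [div_le_iff₀ hε'0] at h1
    have h2 : (0 : ℝ) < 100 * ((K : ℝ) + 1) := by positivity
    have h3 : 100 * ((K : ℝ) + 1) * 1 ≤ 100 * ((K : ℝ) + 1) * (η K * n) := by
      calc 100 * ((K : ℝ) + 1) * 1 ≤ n * ε' := by linarith
        _ = n * (η K * (100 * ((K : ℝ) + 1))) := by rw [hηK]
        _ = 100 * ((K : ℝ) + 1) * (η K * n) := by ring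
    exact le_of_mul_le_mul_left h3 h2
  have hη0 := hη K
  have hηmono : η Kmax ≤ η K := by
    show ε' / (100 * ((Kmax : ℝ) + 1)) ≤ ε' / (100 * ((K : ℝ) + 1))
    gcongr
  set h : ℝ := η K with hh
  -- the cells
  set W : Finset (Fin K) := univ.filter fun c => 4 * h * n ≤ (#(B c) : ℝ) with hW
  set m : Fin K → ℕ := fun c => if c ∈ W then ⌊(#(B c) : ℝ) - 2 * h * n⌋₊ else 0 with hm
  have hWm : ∀ c ∈ W, 4 * h * n ≤ (#(B c) : ℝ) := fun c hc => (mem_filter.1 hc).2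
  have hmW : ∀ c ∈ W, m c = ⌊(#(B c) : ℝ) - 2 * h * n⌋₊ := fun c hc => by
    simp only [hm, if_pos hc]
  have hmW0 : ∀ c, c ∉ W → m c = 0 := fun c hc => by
    simp only [hm, if_neg hc]
  have hpos : ∀ c ∈ W, 0 ≤ (#(B c) : ℝ) - 2 * h * n := fun c hc => by
    have := hWm c hc
    have h1 : 0 ≤ h * n := by positivity
    linarith
  have hmle : ∀ c ∈ W, (m c : ℝ) + 2 * h * n ≤ #(B c) := fun c hc => by
    rw [hmW c hc]
    have := Nat.floor_le (hpos c hc)
    linarith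
  have hmge : ∀ c ∈ W, (#(B c) : ℝ) - 3 * h * n ≤ m c := fun c hc => by
    rw [hmW c hc]
    have := Nat.lt_floor_add_one ((#(B c) : ℝ) - 2 * h * n)
    linarith
  have hBlow : (c₀ + ε' - ε' / 100) * n ≤ ∑ c, (#(B c) : ℝ) := by
    have h1 : (e : ℝ) * s ≤ e * (∑ c, (#(B c) : ℝ)) + n := by exact_mod_cast hBt
    have h2 : (n : ℝ) / e ≤ ε' / 100 * n := by
      rw [div_le_iff₀ he0]
      have h3 : 100 / ε' ≤ e := he
      rw [div_le_iff₀ hε'0] at h3
      calc (n : ℝ) = n * (100 / 100) := by ring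
        _ ≤ n * (e * ε' / 100) := by gcongr
        _ = ε' / 100 * n * e := by ring
    have h3 : (s : ℝ) ≤ (∑ c, (#(B c) : ℝ)) + n / e := by
      have h5 : (e : ℝ) * ((n : ℝ) / e) = n := by
        rw [mul_div_assoc', mul_div_cancel_left₀ _ he0.ne']
      have h4 : (e : ℝ) * s ≤ e * ((∑ c, (#(B c) : ℝ)) + n / e) := by
        rw [mul_add, h5]
        exact h1
      exact le_of_mul_le_mul_left h4 he0
    calc (c₀ + ε' - ε' / 100) * (n : ℝ) = (c₀ + ε') * n - ε' / 100 * n := by ring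
      _ ≤ s - n / e := by linarith
      _ ≤ ∑ c, (#(B c) : ℝ) := by linarith
  have hmsum : (c₀ + ε' / 2) * n ≤ ∑ c ∈ W, (m c : ℝ) := by
    have h1 : ∑ c, (#(B c) : ℝ) = ∑ c ∈ W, (#(B c) : ℝ) +
        ∑ c ∈ univ.filter (fun c => ¬ 4 * h * n ≤ (#(B c) : ℝ)), (#(B c) : ℝ) :=
      (Finset.sum_filter_add_sum_filter_not univ _ _).symm
    have h2 : ∑ c ∈ univ.filter (fun c => ¬ 4 * h * n ≤ (#(B c) : ℝ)), (#(B c) : ℝ) ≤
        K * (4 * h * n) := by
      calc _ ≤ ∑ c ∈ univ.filter (fun c => ¬ 4 * h * n ≤ (#(B c) : ℝ)), 4 * h * (n : ℝ) := by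
            refine Finset.sum_le_sum fun c hc => ?_
            have := (mem_filter.1 hc).2
            push Not at this
            exact this.le
        _ = (#(univ.filter (fun c => ¬ 4 * h * n ≤ (#(B c) : ℝ))) : ℝ) * (4 * h * n) := by
            rw [Finset.sum_const, nsmul_eq_mul]
        _ ≤ K * (4 * h * n) := by
            gcongr
            have h5 := Finset.card_filter_le (univ : Finset (Fin K))
              (fun c => ¬ 4 * h * n ≤ (#(B c) : ℝ))
            rw [Finset.card_univ, Fintype.card_fin] at h5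
            exact_mod_cast h5
    have h3 : ∑ c ∈ W, ((#(B c) : ℝ) - 3 * h * n) ≤ ∑ c ∈ W, (m c : ℝ) :=
      Finset.sum_le_sum fun c hc => hmge c hc
    rw [Finset.sum_sub_distrib, Finset.sum_const, nsmul_eq_mul] at h3
    have h4 : (#W : ℝ) * (3 * h * n) ≤ K * (3 * h * n) := by
      gcongr
      have h5 := Finset.card_le_univ W
      rw [Fintype.card_fin] at h5
      exact_mod_cast h5
    have h6 : K * h ≤ ε' / 100 := by
      have h7 : (K : ℝ) * h ≤ ((K : ℝ) + 1) * h := by nlinarith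
      have h8 : ((K : ℝ) + 1) * h = ε' / 100 := by
        rw [← hηK]; ring
      linarith
    have h9 : (K : ℝ) * (4 * h * n) ≤ 4 * (ε' / 100) * n := by
      calc (K : ℝ) * (4 * h * n) = 4 * (K * h) * n := by ring
        _ ≤ 4 * (ε' / 100) * n := by gcongr
    have h10 : (K : ℝ) * (3 * h * n) ≤ 3 * (ε' / 100) * n := by
      calc (K : ℝ) * (3 * h * n) = 3 * (K * h) * n := by ring
        _ ≤ 3 * (ε' / 100) * n := by gcongr
    have h11 : 0 ≤ ε' * n := by positivity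
    nlinarith
  refine ⟨K, hK, x, H, m, W, fun c hc => ?_, hmsum, fun hsol => ?_⟩
  · have h1 := ASSEMNM.card_le (hBq c).2.1
    have h2 := hWm c hc
    have h3 : (#(B c) : ℝ) ≤ Nat.card (H c) := by exact_mod_cast h1
    have h4 : 0 ≤ h * n := by positivity
    have h5 : η Kmax * n ≤ h * n := by gcongr
    linarith
  · refine ASSEMNM.Hit.mono hA'A (hF₀ K n hn4 G hG A' B x H q m hBA hBd (fun c => (hBq c).1)
      (fun c => (hBq c).2) (fun c hc => ?_) (hsol.mono (Finset.subset_univ _)))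
    by_cases hcW : c ∈ W
    · exact hmle c hcW
    · exact absurd (hmW0 c hcW) hc

end Pool.Agent.Lib.MPa7239a.W2
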