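import Pool.Agent.Lib.MP_a7239a_co.W2.ASM

/-!
# W2, module UPW: the upper bound if `e G` is a `p`-group and `G` has few elements killed by `e`
-/

set_option autoImplicit false

universe u

open Finset
open scoped Pointwise

namespace Pool.Agent.Lib.MPa7239a.W2

open Pool.Agent.Lib.MPa7239a.GC (Hit)
open Pool.Agent.Lib.MPa7239a.RN

/-- an abelian group with at most `P` elements killed by `p` has at most `P ^ k` elements killed by
`p ^ k` -/
theorem card_kill (Y : Type u) [AddCommGroup Y] [Finite Y] (p P : ℕ)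
    (hP : Nat.card {y : Y // p • y = 0} ≤ P) (k : ℕ) : Nat.card {y : Y // p ^ k • y = 0} ≤ P ^ k := by
  classical
  have : Fintype Y := Fintype.ofFinite Y
  have hc : ∀ q : ℕ, Nat.card {y : Y // q • y = 0} = #(univ.filter fun y : Y => q • y = 0) :=
    fun q => by rw [← Fintype.card_subtype, ← Nat.card_eq_fintype_card]
  induction k with
  | zero =>
    rw [hc, pow_zero, pow_zero]
    have h1 : (univ.filter fun y : Y => 1 • y = 0) ⊆ {0} := fun y hy => by
      have := (mem_filter.1 hy).2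
      rw [one_smul] at this
      exact mem_singleton.2 this
    exact (card_le_card h1).trans (by simp)
  | succ k ih =>
    rw [hc] at ih hP ⊢
    set S := univ.filter fun y : Y => p ^ (k + 1) • y = 0
    set S' := univ.filter fun y : Y => p ^ k • y = 0
    have h1 : ∀ y ∈ S, p • y ∈ S' := fun y hy => by
      have := (mem_filter.1 hy).2
      refine mem_filter.2 ⟨mem_univ _, ?_⟩
      rw [smul_smul, ← pow_succ]
      exact this
    have h2 : ∀ z ∈ S', #(S.filter fun y => p • y = z) ≤ P := by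
      intro z _
      rcases (S.filter fun y => p • y = z).eq_empty_or_nonempty with h | ⟨y₀, hy₀⟩
      · rw [h]; simp
      · refine le_trans ?_ hP
        refine card_le_card_of_injOn (fun y => y - y₀) ?_ ?_
        · intro y hy
          have e1 := (mem_filter.1 (mem_coe.1 hy)).2
          have e2 := (mem_filter.1 hy₀).2
          refine mem_coe.2 (mem_filter.2 ⟨mem_univ _, ?_⟩)
          rw [smul_sub, e1, e2, sub_self]
        · intro y _ y' _ h
          exact sub_left_injective h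
    calc #S ≤ P * #S' := card_le_mul_card_image_of_maps_to h1 P h2
      _ ≤ P * P ^ k := Nat.mul_le_mul_left _ ih
      _ = P ^ (k + 1) := by rw [pow_succ, mul_comm]

/-- a large subgroup contains an element `h ∈ e G` of order `p ^ j` -/
theorem exists_ord {p r j e : ℕ} (hp : 1 ≤ p) (hj : 1 ≤ j) (G : Type u) [AddCommGroup G] [Finite G]
    (hpg : ∀ g : G, ∃ a, p ^ a • (e • g) = 0)
    (hrank : Nat.card {g : G // (∃ u, e • u = g) ∧ p • g = 0} ≤ p ^ r) (H : AddSubgroup G)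
    (hH : Nat.card {g : G // e • g = 0} * (p ^ r) ^ (j - 1) < Nat.card H) :
    ∃ h ∈ H, (∃ u, e • u = h) ∧ p ^ j • h = 0 ∧ (j = 0 ∨ p ^ (j - 1) • h ≠ 0) := by
  classical
  have : Fintype G := Fintype.ofFinite G
  by_contra hcon
  push Not at hcon
  -- all elements of `e H` are killed by `p ^ (j - 1)`
  have h1 : ∀ h ∈ H, p ^ (j - 1) • (e • h) = 0 := by
    intro h hh
    by_contra h2
    obtain ⟨a, ha⟩ := hpg h
    -- the least exponent
    have hex : ∃ a, p ^ a • (e • h) = 0 := ⟨a, ha⟩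
    set b := Nat.find hex with hb
    have hb1 : p ^ b • (e • h) = 0 := Nat.find_spec hex
    have hbj : j - 1 < b := by
      by_contra h3
      push Not at h3
      apply h2
      obtain ⟨c, hc⟩ := Nat.exists_eq_add_of_le h3
      rw [hc, pow_add, mul_comm, ← smul_smul, hb1, smul_zero]
    have h4 := hcon (p ^ (b - j) • (e • h)) (H.nsmul_mem (H.nsmul_mem hh _) _)
      ⟨p ^ (b - j) • h, by rw [smul_smul, smul_smul, mul_comm]⟩ (by
        rw [smul_smul, ← pow_add]
        have : j + (b - j) = b := by omega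
        rw [this, hb1])
    have h5 : p ^ (b - 1) • (e • h) = 0 := by
      have h6 := h4.2
      rw [smul_smul, ← pow_add] at h6
      have : j - 1 + (b - j) = b - 1 := by omega
      rwa [this] at h6
    exact Nat.find_min hex (m := b - 1) (by omega) h5
  -- counting
  set Y := (nsmulAddMonoidHom (α := G) e).range
  have hY : Nat.card {y : Y // p • y = 0} ≤ p ^ r := by
    refine le_trans ?_ hrank
    refine Nat.card_le_card_of_injective
      (fun z : {y : Y // p • y = 0} => (⟨z.1.1, z.1.2, congrArg Subtype.val z.2⟩ :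
        {g : G // (∃ u, e • u = g) ∧ p • g = 0})) ?_
    intro z z' hz
    have h3 : z.1.1 = z'.1.1 :=
      congrArg (fun t : {g : G // (∃ u, e • u = g) ∧ p • g = 0} => (t : G)) hz
    exact Subtype.ext (Subtype.ext h3)
  have hk := card_kill Y p (p ^ r) hY (j - 1)
  have hcH : Nat.card H = #(univ.filter fun g : G => g ∈ H) := by
    rw [← Fintype.card_subtype, ← Nat.card_eq_fintype_card]
  have hce : Nat.card {g : G // e • g = 0} = #(univ.filter fun g : G => e • g = 0) := by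
    rw [← Fintype.card_subtype, ← Nat.card_eq_fintype_card]
  have hcY : #((univ.filter fun g : G => g ∈ H).image fun g => e • g) ≤
      Nat.card {y : Y // p ^ (j - 1) • y = 0} := by
    have hf : Fintype {y : Y // p ^ (j - 1) • y = 0} := Fintype.ofFinite _
    rw [Nat.card_eq_fintype_card, ← card_univ]
    refine card_le_card_of_surjOn (fun z : {y : Y // p ^ (j - 1) • y = 0} => z.1.1) ?_
    intro y hy
    obtain ⟨g, hg, rfl⟩ := mem_image.1 (mem_coe.1 hy)
    exact ⟨⟨⟨e • g, g, rfl⟩, Subtype.ext (h1 g (mem_filter.1 hg).2)⟩, mem_coe.2 (mem_univ _), rfl⟩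
  have hfib : #(univ.filter fun g : G => g ∈ H) ≤ Nat.card {g : G // e • g = 0} *
      #((univ.filter fun g : G => g ∈ H).image fun g => e • g) := by
    refine card_le_mul_card_image _ _ fun z hz => ?_
    obtain ⟨g₀, hg₀, rfl⟩ := mem_image.1 hz
    rw [hce]
    refine card_le_card_of_injOn (fun y => y - g₀) ?_ ?_
    · intro y hy
      have e1 := (mem_filter.1 (mem_coe.1 hy)).2
      refine mem_coe.2 (mem_filter.2 ⟨mem_univ _, ?_⟩)
      show e • (y - g₀) = 0
      rw [smul_sub, e1, sub_self]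
    · intro y _ y' _ h
      exact sub_left_injective h
  rw [hcH] at hH
  have h7 : #(univ.filter fun g : G => g ∈ H) ≤
      Nat.card {g : G // e • g = 0} * (p ^ r) ^ (j - 1) :=
    hfib.trans (Nat.mul_le_mul_left _ (hcY.trans hk))
  omega

/-- **The upper bound.** -/
theorem upperW (p r B : ℕ) (hpp : p.Prime) (hB : Comp.{u, 0} p r B) (R : ℕ) (hR : 1 ≤ R) (ε : ℝ)
    (hε : 0 < ε) : ∃ κ : ℝ, 0 < κ ∧ ∃ n₀ : ℕ, ∀ n : ℕ, n₀ ≤ n →
    ∀ (G : Type u) [AddCommGroup G] [Finite G], (∀ g : G, n • g = 0) → Nat.card G ≤ n ^ R →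
    ∀ e : ℕ, e ∣ n → (Nat.card {g : G // e • g = 0} : ℝ) ≤ κ * n →
    (∀ g : G, ∃ a, p ^ a • (e • g) = 0) →
    Nat.card {g : G // (∃ u, e • u = g) ∧ p • g = 0} ≤ p ^ r →
    ∀ A : Finset G, ((B : ℝ) / (p - 1) + ε) * n ≤ #A → Hit A n 0 := by
  classical
  have hp : 2 ≤ p := hpp.two_le
  set ε' : ℝ := min ε 1 with hε'
  have hε'0 : 0 < ε' := lt_min hε one_pos
  have hε'1 : ε' ≤ 1 := min_le_right _ _
  have hε'ε : ε' ≤ ε := min_le_left _ _
  have hp2 : (2 : ℝ) ≤ p := by exact_mod_cast hp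
  have hp1 : (1 : ℝ) ≤ p - 1 := by linarith
  have hp0 : (0 : ℝ) < p - 1 := by linarith
  set c₀ : ℝ := (B : ℝ) / (p - 1) with hc₀
  have hc₀0 : 0 ≤ c₀ := by positivity
  have hc₀B : c₀ ≤ B := div_le_self (Nat.cast_nonneg B) hp1
  obtain ⟨Kmax, δ, hδ, n₁, hasm⟩ := assem.{u} R hR (B + 2) ε' hε'0 hε'1
  -- the level `j`
  obtain ⟨N, hN⟩ := exists_nat_ge (2 * ((Kmax : ℝ) + 1) / ε')
  set j : ℕ := N + 1 with hj
  have hj1 : 1 ≤ j := by omega
  have hpj : (N : ℝ) ≤ (p : ℝ) ^ j := by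
    have h1 : N < 2 ^ N := Nat.lt_two_pow_self
    have h2 : 2 ^ N ≤ p ^ j := by
      calc 2 ^ N ≤ p ^ N := Nat.pow_le_pow_left hp _
        _ ≤ p ^ j := Nat.pow_le_pow_right (by omega) (by omega)
    have h3 : N ≤ p ^ j := h1.le.trans h2
    exact_mod_cast h3
  have hq : ((Kmax : ℝ) + 1) ≤ ε' / 2 * (p : ℝ) ^ j := by
    have h1 := hN.trans hpj
    rw [div_le_iff₀ hε'0] at h1
    linarith
  set κ : ℝ := δ / (2 * (p : ℝ) ^ (r * (j - 1))) with hκ
  have hP0 : (0 : ℝ) < (p : ℝ) ^ (r * (j - 1)) := by positivity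
  have hκ0 : 0 < κ := by positivity
  refine ⟨κ, hκ0, max n₁ 1, fun n hn G _ _ hG hcard e hen hker hpg hrank A hA => ?_⟩
  have hn1 : n₁ ≤ n := (le_max_left _ _).trans hn
  have hn2 : 1 ≤ n := (le_max_right _ _).trans hn
  have hnR : (0 : ℝ) < n := by exact_mod_cast hn2
  obtain ⟨K, hK, x, H, m, W, hW, hsum, hhit⟩ := hasm n hn1 G hG hcard c₀ hc₀0
    (by push_cast; linarith) A (le_trans (by gcongr) hA)
  have hKR : (K : ℝ) ≤ Kmax := by exact_mod_cast hK
  -- elements of order `p ^ j`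
  have hord : ∀ c ∈ W, ∃ h ∈ H c, (∃ u, e • u = h) ∧ p ^ j • h = 0 ∧
      (j = 0 ∨ p ^ (j - 1) • h ≠ 0) := by
    intro c hc
    refine exists_ord (by omega) hj1 G hpg hrank (H c) ?_
    have h1 : (Nat.card {g : G // e • g = 0} : ℝ) * (p : ℝ) ^ (r * (j - 1)) ≤ δ / 2 * n := by
      calc (Nat.card {g : G // e • g = 0} : ℝ) * (p : ℝ) ^ (r * (j - 1))
          ≤ κ * n * (p : ℝ) ^ (r * (j - 1)) := by gcongr
        _ = δ / 2 * n := by
            rw [hκ]
            field_simp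
    have h2 : δ / 2 * n < δ * n := by
      have : 0 < δ * n := by positivity
      linarith
    have h3 : (Nat.card {g : G // e • g = 0} : ℝ) * (p : ℝ) ^ (r * (j - 1)) < Nat.card (H c) :=
      (h1.trans_lt h2).trans_le (hW c hc)
    rw [← pow_mul]
    exact_mod_cast h3
  apply hhit
  -- `W` is nonempty
  have hWne : W.Nonempty := by
    by_contra h
    rw [not_nonempty_iff_eq_empty] at h
    rw [h, sum_empty] at hsum
    have : 0 < (c₀ + ε' / 2) * n := by positivity
    linarith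
  obtain ⟨cw, hcw⟩ := hWne
  -- `p ^ j * e ∣ n`
  obtain ⟨h₀, -, ⟨u₀, hu₀⟩, h₁, h₂⟩ := hord cw hcw
  obtain ⟨n', hn'⟩ := hen
  have he0 : 1 ≤ e := Nat.pos_of_ne_zero fun h => by rw [h, zero_mul] at hn'; omega
  have hdvd : p ^ j ∣ n' := by
    have h3 : addOrderOf h₀ = p ^ j := by
      obtain ⟨i, hi, hi'⟩ := (Nat.dvd_prime_pow hpp).1 (addOrderOf_dvd_iff_nsmul_eq_zero.2 h₁)
      rcases Nat.lt_or_ge i j with h4 | h4
      · exfalso
        rcases h₂ with h₂ | h₂
        · omega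
        · apply h₂
          rw [← addOrderOf_dvd_iff_nsmul_eq_zero, hi']
          exact pow_dvd_pow p (by omega)
      · rw [hi', le_antisymm hi h4]
    rw [← h3, addOrderOf_dvd_iff_nsmul_eq_zero, ← hu₀, smul_smul, mul_comm, ← hn']
    exact hG _
  obtain ⟨f', hf'⟩ := hdvd
  set f : ℕ := e * f' with hf
  have hnf : n = p ^ j * f := by rw [hn', hf', hf]; ring
  have hf1 : 1 ≤ f := Nat.pos_of_ne_zero fun h => by rw [h, mul_zero] at hnf; omega
  refine solq (by omega) hB j hnf hf1 G hG hrank x H m W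
    (fun c => ⟨f' • x c, by rw [smul_smul]⟩) hord ?_
  -- the number of pairs
  have hfR : (0 : ℝ) < f := by exact_mod_cast hf1
  have hnfR : (n : ℝ) = (p : ℝ) ^ j * f := by rw [hnf]; push_cast; ring
  have hgeom : ((∑ i ∈ range j, p ^ i : ℕ) : ℝ) * (p - 1) = (p : ℝ) ^ j - 1 := by
    push_cast
    rw [geom_sum_mul]
  have h1 : ∑ c ∈ W, ((m c : ℝ) / f - 1) ≤ ((∑ c ∈ W, m c / f : ℕ) : ℝ) := by
    push_cast
    refine sum_le_sum fun c _ => ?_
    have h2 := Nat.lt_div_mul_add (a := m c) (b := f) hf1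
    have h3 : (m c : ℝ) < ((m c / f : ℕ) : ℝ) * f + f := by exact_mod_cast h2
    have h4 : (m c : ℝ) / f < ((m c / f : ℕ) : ℝ) + 1 := by
      rw [div_lt_iff₀ hfR]
      linarith
    linarith
  rw [sum_sub_distrib, ← sum_div, sum_const, nsmul_eq_mul, mul_one] at h1
  have hWK : (#W : ℝ) ≤ K := by
    have h5 := Finset.card_le_univ W
    rw [Fintype.card_fin] at h5
    exact_mod_cast h5
  have h2 : (c₀ + ε' / 2) * (p : ℝ) ^ j ≤ (∑ c ∈ W, (m c : ℝ)) / f := by
    rw [le_div_iff₀ hfR]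
    calc (c₀ + ε' / 2) * (p : ℝ) ^ j * f = (c₀ + ε' / 2) * n := by rw [hnfR]; ring
      _ ≤ _ := hsum
  have h3 : (B : ℝ) * ((∑ i ∈ range j, p ^ i : ℕ) : ℝ) ≤ c₀ * (p : ℝ) ^ j := by
    have h4 : (B : ℝ) = c₀ * (p - 1) := by
      rw [hc₀]
      field_simp
    rw [h4]
    calc c₀ * (p - 1) * ((∑ i ∈ range j, p ^ i : ℕ) : ℝ)
        = c₀ * (((∑ i ∈ range j, p ^ i : ℕ) : ℝ) * (p - 1)) := by ring
      _ = c₀ * ((p : ℝ) ^ j - 1) := by rw [hgeom]
      _ ≤ c₀ * (p : ℝ) ^ j := by gcongr; linarith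
  have h5 : ((B * ∑ i ∈ range j, p ^ i + 1 : ℕ) : ℝ) ≤ ((∑ c ∈ W, m c / f : ℕ) : ℝ) := by
    rw [Nat.cast_add, Nat.cast_mul, Nat.cast_one]
    have h6 : (c₀ + ε' / 2) * (p : ℝ) ^ j = c₀ * (p : ℝ) ^ j + ε' / 2 * (p : ℝ) ^ j := by ring
    linarith
  exact_mod_cast h5

end Pool.Agent.Lib.MPa7239a.W2
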