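import Mathlib

/-!
# W2, module HARB: zero-sum subsequences modulo cyclic subgroups in p-groups

`Comp p r B`: in every finite abelian group `Y` with at most `p ^ r` elements killed by `p`, every family of more than
`B` pairs `(y i, c i)` with `c i ∉ p Y` contains `p` members for which the sum of the `y i` lies in `p Y` plus the subgroup
generated by their `c i`. Consequence (Harborth's induction): if `p ^ j` kills `Y` and the `c i` have order `p ^ j`, then
`B (1 + p + .. + p ^ (j - 1)) + 1` pairs contain `p ^ j` pairs for which the sum of the `y i` lies in the subgroup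
generated by their `c i`. For `p = 2`: `B = 2 ^ (r - 1)`.
-/

set_option autoImplicit false

universe u v

open Finset

namespace Pool.Agent.Lib.MPa7239a.W2

/-- the combinatorial constant -/
def Comp (p r B : ℕ) : Prop := ∀ (Y : Type u) [AddCommGroup Y] [Finite Y],
  Nat.card {y : Y // p • y = 0} ≤ p ^ r → ∀ (ι : Type v) (y c : ι → Y) (J : Finset ι),
  (∀ i ∈ J, ∀ v : Y, c i ≠ p • v) → B < #J →
  ∃ T ⊆ J, #T = p ∧ ∃ w : Y, ∑ i ∈ T, y i - p • w ∈ AddSubgroup.closure (c '' (T : Set ι))

/-- disjoint good sets of size `p` -/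
theorem groups {ι : Type v} [DecidableEq ι] (good : Finset ι → Prop) (p B : ℕ) (hp : 1 ≤ p)
    (M : ℕ) :
    ∀ I : Finset ι, (∀ J ⊆ I, B < #J → ∃ T ⊆ J, #T = p ∧ good T) →
      B + p * M ≤ #I + (p - 1) → ∃ P : Finset (Finset ι), #P = M ∧
        (∀ T ∈ P, T ⊆ I ∧ #T = p ∧ good T) ∧ ∀ T ∈ P, ∀ T' ∈ P, T ≠ T' → Disjoint T T' := by
  induction M with
  | zero => exact fun I _ _ => ⟨∅, rfl, by simp, by simp⟩
  | succ M ih =>
    intro I hI hc
    rw [Nat.mul_succ] at hc
    obtain ⟨T, hT, hTp, hg⟩ := hI I subset_rfl (by omega)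
    have hcard : #(I \ T) = #I - p := by rw [card_sdiff_of_subset hT, hTp]
    have hle : p ≤ #I := hTp ▸ card_le_card hT
    obtain ⟨P, h1, h2, h3⟩ := ih (I \ T) (fun J hJ hB => hI J (hJ.trans sdiff_subset) hB)
      (by rw [hcard]; omega)
    have hdis : ∀ T' ∈ P, Disjoint T T' := fun T' hT' =>
      disjoint_of_subset_right (h2 T' hT').1 disjoint_sdiff
    have hnP : T ∉ P := by
      intro h
      have h4 := hdis T h
      rw [disjoint_self_iff_empty] at h4
      rw [h4, card_empty] at hTp
      omega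
    refine ⟨insert T P, by rw [card_insert_of_notMem hnP, h1], ?_, ?_⟩
    · intro T' hT'
      rcases mem_insert.1 hT' with rfl | hT'
      · exact ⟨hT, hTp, hg⟩
      · exact ⟨(h2 T' hT').1.trans sdiff_subset, (h2 T' hT').2⟩
    · intro T₁ h₁ T₂ h₂ hne
      rcases mem_insert.1 h₁ with e₁ | m₁ <;> rcases mem_insert.1 h₂ with e₂ | m₂
      · exact absurd (e₁.trans e₂.symm) hne
      · rw [e₁]
        exact hdis T₂ m₂
      · rw [e₂]
        exact (hdis T₁ m₁).symm
      · exact h3 T₁ m₁ T₂ m₂ hne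

theorem harb {p r B : ℕ} (hp : 1 ≤ p) (hB : Comp.{u, v} p r B) (j : ℕ) : ∀ (Y : Type u) [AddCommGroup Y]
    [Finite Y], (∀ y : Y, p ^ j • y = 0) → Nat.card {y : Y // p • y = 0} ≤ p ^ r →
    ∀ (ι : Type v) (y c : ι → Y) (I : Finset ι), (∀ i ∈ I, j = 0 ∨ p ^ (j - 1) • c i ≠ 0) →
    B * ∑ i ∈ range j, p ^ i + 1 ≤ #I →
    ∃ T ⊆ I, #T = p ^ j ∧ ∑ i ∈ T, y i ∈ AddSubgroup.closure (c '' (T : Set ι)) := by
  classical
  induction j with
  | zero =>
    intro Y _ _ hY _ ι y c I _ hI
    have h1 : I.Nonempty := card_pos.1 (by omega)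
    obtain ⟨i, hi⟩ := h1
    refine ⟨{i}, singleton_subset_iff.2 hi, by simp, ?_⟩
    have h2 : y i = 0 := by simpa using hY (y i)
    rw [sum_singleton, h2]
    exact AddSubgroup.zero_mem _
  | succ j ih =>
    intro Y _ _ hY h2 ι y c I hc hI
    have hc2 : ∀ i ∈ I, ∀ v : Y, c i ≠ p • v := by
      intro i hi v hv
      rcases hc i hi with h | h
      · omega
      · apply h
        rw [Nat.add_sub_cancel, hv, smul_smul, ← pow_succ]
        exact hY v
    have hsumj : ∑ i ∈ range (j + 1), p ^ i = p * ∑ i ∈ range j, p ^ i + 1 := by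
      rw [sum_range_succ', mul_sum, pow_zero]
      congr 1
      exact sum_congr rfl fun i _ => by rw [pow_succ']
    -- the groups
    obtain ⟨P, hP1, hP2, hP3⟩ := groups
      (fun T : Finset ι => ∃ w : Y, ∑ i ∈ T, y i - p • w ∈ AddSubgroup.closure (c '' (T : Set ι)))
      p B hp (B * ∑ i ∈ range j, p ^ i + 1) I
      (fun J hJ hB' => hB Y h2 ι y c J (fun i hi => hc2 i (hJ hi)) hB') (by
        rw [hsumj] at hI
        have h3 : B * (p * ∑ i ∈ range j, p ^ i + 1) + 1 =
          B + p * (B * ∑ i ∈ range j, p ^ i) + 1 := by ring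
        rw [Nat.mul_add p]
        omega)
    have hw : ∀ T : Finset ι, ∃ w : Y, T ∈ P →
        ∑ i ∈ T, y i - p • w ∈ AddSubgroup.closure (c '' (T : Set ι)) := by
      intro T
      by_cases hT : T ∈ P
      · obtain ⟨w, h⟩ := (hP2 T hT).2.2
        exact ⟨w, fun _ => h⟩
      · exact ⟨0, fun h => absurd h hT⟩
    choose w hw using hw
    have hi0 : ∀ T : Finset ι, ∃ d : Y, T ∈ P → ∃ i ∈ T, d = c i := by
      intro T
      by_cases hT : T ∈ P
      · have h3 : T.Nonempty := card_pos.1 (by rw [(hP2 T hT).2.1]; omega)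
        obtain ⟨i, hi⟩ := h3
        exact ⟨c i, fun _ => ⟨i, hi, rfl⟩⟩
      · exact ⟨0, fun h => absurd h hT⟩
    choose d hd using hi0
    set f : Y →+ Y := nsmulAddMonoidHom (α := Y) p with hf
    have hfa : ∀ v : Y, f v = p • v := fun v => rfl
    -- the next level
    obtain ⟨T', hT'P, hT', hsum⟩ := ih f.range
      (by
        rintro ⟨v, u, rfl⟩
        apply Subtype.ext
        show p ^ j • (f u) = 0
        rw [hfa, smul_smul, ← pow_succ]
        exact hY u)
      (by
        refine le_trans ?_ h2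
        refine Nat.card_le_card_of_injective
          (fun z : {z : f.range // p • z = 0} => (⟨z.1.1, congrArg Subtype.val z.2⟩ :
            {y : Y // p • y = 0})) ?_
        intro z z' h
        have h3 : z.1.1 = z'.1.1 := congrArg (fun t : {y : Y // p • y = 0} => (t : Y)) h
        exact Subtype.ext (Subtype.ext h3))
      (Finset ι) (fun T => ⟨f (w T), w T, rfl⟩) (fun T => ⟨f (d T), d T, rfl⟩) P
      (by
        intro T hT
        by_cases hj : j = 0
        · exact Or.inl hj
        · right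
          intro h
          have h3 : p ^ (j - 1) • f (d T) = 0 := congrArg Subtype.val h
          obtain ⟨i, hi, hdi⟩ := hd T hT
          rcases hc i ((hP2 T hT).1 hi) with h4 | h4
          · omega
          · apply h4
            rw [hfa, hdi, smul_smul, ← pow_succ] at h3
            rw [Nat.add_sub_cancel]
            rwa [show j - 1 + 1 = j by omega] at h3)
      (by rw [hP1])
    -- the union of the groups
    set T := T'.biUnion id with hT
    have hpd : (T' : Set (Finset ι)).PairwiseDisjoint id := by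
      intro U hU U' hU' hne
      exact hP3 U (hT'P hU) U' (hT'P hU') hne
    have hTI : T ⊆ I := by
      intro i hi
      obtain ⟨U, hU, hUi⟩ := mem_biUnion.1 hi
      exact (hP2 U (hT'P hU)).1 hUi
    have hUT : ∀ U ∈ T', U ⊆ T := fun U hU i hi => mem_biUnion.2 ⟨U, hU, hi⟩
    have hcl : ∀ U ∈ T', AddSubgroup.closure (c '' (U : Set ι)) ≤
        AddSubgroup.closure (c '' (T : Set ι)) := fun U hU =>
      AddSubgroup.closure_mono (Set.image_mono (coe_subset.2 (hUT U hU)))
    refine ⟨T, hTI, ?_, ?_⟩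
    · rw [hT, card_biUnion (fun U hU U' hU' h => hpd hU hU' h)]
      have h3 : ∀ U ∈ T', #(id U) = p := fun U hU => (hP2 U (hT'P hU)).2.1
      rw [sum_congr rfl h3, sum_const, hT', smul_eq_mul, pow_succ]
    · have h1 : ∑ i ∈ T, y i = ∑ U ∈ T', (p • w U) + ∑ U ∈ T', (∑ i ∈ U, y i - p • w U) := by
        rw [hT, sum_biUnion hpd, ← sum_add_distrib]
        refine sum_congr rfl fun U _ => ?_
        rw [add_sub_cancel]
        rfl
      rw [h1]
      refine AddSubgroup.add_mem _ ?_ (AddSubgroup.sum_mem _ fun U hU =>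
        hcl U hU (hw U (hT'P hU)))
      have h3 := AddSubgroup.mem_map_of_mem f.range.subtype hsum
      rw [AddMonoidHom.map_closure, map_sum] at h3
      have h4 : ∑ U ∈ T', f.range.subtype (⟨f (w U), w U, rfl⟩ : f.range) = ∑ U ∈ T', p • w U :=
        rfl
      rw [h4] at h3
      refine (AddSubgroup.closure_le _).2 ?_ h3
      rintro z ⟨z', ⟨U, hU, rfl⟩, rfl⟩
      show f (d U) ∈ AddSubgroup.closure (c '' (T : Set ι))
      obtain ⟨i, hi, hdi⟩ := hd U (hT'P (mem_coe.1 hU))
      rw [hfa, hdi]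
      refine AddSubgroup.nsmul_mem _ (AddSubgroup.subset_closure ?_) _
      exact ⟨i, mem_coe.2 (hUT U (mem_coe.1 hU) hi), rfl⟩

/-- `[Y : p Y]` is the number of elements killed by `p` -/
theorem card_quot (p : ℕ) (Y : Type u) [AddCommGroup Y] [Finite Y] :
    Nat.card (Y ⧸ (nsmulAddMonoidHom (α := Y) p).range) = Nat.card {y : Y // p • y = 0} := by
  set f : Y →+ Y := nsmulAddMonoidHom (α := Y) p with hf
  have h1 : Nat.card f.ker = Nat.card {y : Y // p • y = 0} := by
    refine Nat.card_congr (Equiv.subtypeEquivRight fun y => ?_)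
    rw [AddMonoidHom.mem_ker]
    rfl
  have h2 : Nat.card f.ker * Nat.card f.range = Nat.card Y := by
    have h := f.ker.card_mul_index
    rwa [AddSubgroup.index_ker] at h
  have h3 : Nat.card f.range * Nat.card (Y ⧸ f.range) = Nat.card Y := by
    have h := f.range.card_mul_index
    exact h
  have h4 : 0 < Nat.card f.range := Nat.card_pos
  rw [← h1]
  have h5 : Nat.card f.range * Nat.card (Y ⧸ f.range) = Nat.card f.range * Nat.card f.ker := by
    rw [h3, ← h2, mul_comm]
  exact Nat.eq_of_mul_eq_mul_left h4 h5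

/-- `p = 2`: among `2 ^ (r - 1) + 1` members two are compatible -/
theorem comp_two {r : ℕ} (hr : 1 ≤ r) : Comp.{u, v} 2 r (2 ^ (r - 1)) := by
  classical
  intro Y _ _ h2 ι y c J hc hJ
  by_contra hcon
  push Not at hcon
  set f : Y →+ Y := nsmulAddMonoidHom (α := Y) 2 with hf
  let mk : Y →+ Y ⧸ f.range := QuotientAddGroup.mk' f.range
  have hmk : ∀ a b : Y, mk a = mk b → ∃ v, a - b = 2 • v := by
    intro a b hab
    have h : a - b ∈ f.range := by
      rw [← QuotientAddGroup.eq_zero_iff]
      have : mk (a - b) = 0 := by rw [map_sub, hab, sub_self]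
      exact this
    obtain ⟨v, hv⟩ := h
    exact ⟨v, hv.symm⟩
  have hfin : Fintype (Y ⧸ f.range) := Fintype.ofFinite _
  -- the sets of two classes
  let S : ι → Finset (Y ⧸ f.range) := fun i => {mk (y i), mk (y i) + mk (c i)}
  have hS2 : ∀ i ∈ J, #(S i) = 2 := by
    intro i hi
    refine card_pair fun h => ?_
    have h0 : mk (c i) = mk 0 := by
      rw [map_zero]
      have := h
      rwa [left_eq_add] at this
    obtain ⟨v, hv⟩ := hmk _ _ h0
    rw [sub_zero] at hv
    exact hc i hi v hv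
  have hdis : ∀ i ∈ J, ∀ k ∈ J, i ≠ k → Disjoint (S i) (S k) := by
    intro i hi k hk hik
    rw [disjoint_left]
    intro z hz hz'
    -- `z = mk (y i + α c i) = mk (y k + β c k)`
    have hza : ∃ α : ℤ, z = mk (y i + α • c i) := by
      rcases mem_insert.1 hz with h | h
      · exact ⟨0, by rw [h, zero_smul, add_zero]⟩
      · rw [mem_singleton] at h
        exact ⟨1, by rw [h, one_smul, map_add]⟩
    have hzb : ∃ β : ℤ, z = mk (y k + β • c k) := by
      rcases mem_insert.1 hz' with h | h
      · exact ⟨0, by rw [h, zero_smul, add_zero]⟩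
      · rw [mem_singleton] at h
        exact ⟨1, by rw [h, one_smul, map_add]⟩
    obtain ⟨α, ha⟩ := hza
    obtain ⟨β, hb⟩ := hzb
    obtain ⟨v, hv⟩ := hmk _ _ (ha.symm.trans hb)
    refine hcon {i, k} ?_ (card_pair hik) (y k + v) ?_
    · intro x hx
      rcases mem_insert.1 hx with rfl | hx
      · exact hi
      · rw [mem_singleton] at hx
        rwa [hx]
    · have h1 : ∑ x ∈ ({i, k} : Finset ι), y x - 2 • (y k + v) = β • c k - α • c i := by
        rw [sum_pair hik, smul_add, two_smul ℕ (y k), ← hv]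
        abel
      rw [h1]
      refine AddSubgroup.sub_mem _ (AddSubgroup.zsmul_mem _ (AddSubgroup.subset_closure ?_) _)
        (AddSubgroup.zsmul_mem _ (AddSubgroup.subset_closure ?_) _)
      · exact ⟨k, by simp, rfl⟩
      · exact ⟨i, by simp, rfl⟩
  have hcard : #(J.biUnion S) = 2 * #J := by
    rw [card_biUnion hdis, sum_congr rfl hS2, sum_const, smul_eq_mul, mul_comm]
  have h1 : 2 * #J ≤ 2 ^ r := by
    rw [← hcard]
    calc #(J.biUnion S) ≤ Fintype.card (Y ⧸ f.range) := card_le_univ _
      _ = Nat.card (Y ⧸ f.range) := Nat.card_eq_fintype_card.symm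
      _ = Nat.card {y : Y // 2 • y = 0} := card_quot 2 Y
      _ ≤ 2 ^ r := h2
  have h3 : 2 ^ r = 2 * 2 ^ (r - 1) := by
    rw [← pow_succ']
    congr 1
    omega
  omega

end Pool.Agent.Lib.MPa7239a.W2
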