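import Pool.Agent.Lib.MP_a7239a_co.W2.THREEK

/-!
# W2, module COMPT: among `19` pairs in `F_3 ^ 4` three are compatible
-/

set_option autoImplicit false

open Finset

namespace Pool.Agent.Lib.MPa7239a.W2

open THREEM THREEKM

namespace COMPTM

section
variable {V : Type} [AddCommGroup V] [Module (ZMod 3) V] (φ : V →ₗ[ZMod 3] ZMod 3)

theorem up_one {x a : LinearMap.ker φ} (h : x ∈ AddSubgroup.zmultiples a) :
    (x : V) ∈ AddSubgroup.zmultiples (a : V) := by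
  obtain ⟨k, rfl⟩ := h
  exact ⟨k, rfl⟩

theorem up_two {x a b : LinearMap.ker φ}
    (h : x ∈ AddSubgroup.zmultiples a ⊔ AddSubgroup.zmultiples b) :
    (x : V) ∈ AddSubgroup.zmultiples (a : V) ⊔ AddSubgroup.zmultiples (b : V) := by
  obtain ⟨y, hy, z, hz, rfl⟩ := AddSubgroup.mem_sup.1 h
  exact AddSubgroup.add_mem_sup (up_one φ hy) (up_one φ hz)

end

end COMPTM

open COMPTM in
theorem compV_three : CompV 3 4 18 := by
  intro V _ _ _ hV ι y c J hc hJ
  classical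
  have := Fintype.ofFinite V
  by_contra hcon
  push Not at hcon
  obtain ⟨J₀, hJ₀, hcard⟩ := exists_subset_card_eq (s := J) (n := 19) (by omega)
  -- no compatible triple
  have hno : ∀ i ∈ J₀, ∀ j ∈ J₀, ∀ k ∈ J₀, i ≠ j → i ≠ k → j ≠ k →
      ∀ a ∈ AddSubgroup.zmultiples (c i), ∀ b ∈ AddSubgroup.zmultiples (c j),
      ∀ d ∈ AddSubgroup.zmultiples (c k), y i + y j + y k ≠ a + b + d := by
    intro i hi j hj k hk hij hik hjk a ha b hb d hd h0
    have hz : ∀ l ∈ ({i, j, k} : Finset ι), AddSubgroup.zmultiples (c l) ≤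
        AddSubgroup.closure (c '' (({i, j, k} : Finset ι) : Set ι)) := by
      intro l hl
      rw [AddSubgroup.zmultiples_le]
      exact AddSubgroup.subset_closure ⟨l, mem_coe.2 hl, rfl⟩
    refine hcon {i, j, k} ?_ (card_eq_three.2 ⟨i, j, k, hij, hik, hjk, rfl⟩) ?_
    · intro l hl
      simp only [mem_insert, mem_singleton] at hl
      rcases hl with rfl | rfl | rfl
      · exact hJ₀ hi
      · exact hJ₀ hj
      · exact hJ₀ hk
    · rw [sum_insert (by simp [hij, hik]), sum_pair hjk, ← add_assoc, h0]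
      exact AddSubgroup.add_mem _ (AddSubgroup.add_mem _ (hz i (by simp) ha)
        (hz j (by simp) hb)) (hz k (by simp) hd)
  -- the form
  obtain ⟨φ, hφ⟩ := average (p := 3) V ι c J₀ (fun i hi => hc i (hJ₀ hi))
  set J' := J₀.filter fun i => φ (c i) ≠ 0 with hJ'
  have h13 : 13 ≤ #J' := by
    rw [hcard] at hφ
    omega
  have hJ'J : ∀ i ∈ J', i ∈ J₀ := fun i hi => (mem_filter.1 hi).1
  have hφ' : ∀ i ∈ J', φ (c i) ≠ 0 := fun i hi => (mem_filter.1 hi).2
  have hφ0 : φ ≠ 0 := by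
    obtain ⟨i, hi⟩ : J'.Nonempty := card_pos.1 (by omega)
    intro h0
    apply hφ' i hi
    rw [h0, LinearMap.zero_apply]
  obtain ⟨o, ho⟩ : ∃ o : V, φ o = 1 := by
    obtain ⟨i, hi⟩ : J'.Nonempty := card_pos.1 (by omega)
    refine ⟨(φ (c i))⁻¹ • c i, ?_⟩
    rw [map_smul, smul_eq_mul, inv_mul_cancel₀ (hφ' i hi)]
  have hK : Module.finrank (ZMod 3) (LinearMap.ker φ) = 3 := AR.MAINM.finrank_ker hφ0 hV
  -- the points in the levels
  have hw : ∀ (a : ZMod 3) (i : ι), ∃ w : LinearMap.ker φ, i ∈ J' →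
      y i - ((w : V) + a • o) ∈ AddSubgroup.zmultiples (c i) := by
    intro a i
    by_cases hi : i ∈ J'
    · refine ⟨⟨y i - ((φ (y i) - a) * (φ (c i))⁻¹) • c i - a • o, ?_⟩, fun _ => ?_⟩
      · rw [LinearMap.mem_ker, map_sub, map_sub, map_smul, map_smul, ho, smul_eq_mul, smul_eq_mul,
          mul_assoc, inv_mul_cancel₀ (hφ' i hi)]
        ring
      · have e : y i - (y i - ((φ (y i) - a) * (φ (c i))⁻¹) • c i - a • o + a • o) =
            ((φ (y i) - a) * (φ (c i))⁻¹) • c i := by abel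
        rw [e]
        exact smul_mem _ _
    · exact ⟨0, fun h => absurd h hi⟩
  choose w hw using hw
  have hT : ∀ a, NoT J' (w a) := by
    intro a i hi j hj k hk hij hik hjk h0
    refine hno i (hJ'J i hi) j (hJ'J j hj) k (hJ'J k hk) hij hik hjk _ (hw a i hi) _ (hw a j hj) _
      (hw a k hk) ?_
    have h1 : ((w a i : V) + (w a j : V) + (w a k : V)) = 0 := congrArg Subtype.val h0
    have e : y i - ((w a i : V) + a • o) + (y j - ((w a j : V) + a • o)) +
        (y k - ((w a k : V) + a • o)) = y i + y j + y k -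
        ((w a i : V) + (w a j : V) + (w a k : V)) - (a • o + a • o + a • o) := by abel
    rw [e, h1, three_zero, sub_zero, sub_zero]
  -- the lines in the levels
  have hlvl : ∀ l ∈ J₀, φ (c l) = 0 → ∀ i ∈ J', ∀ j ∈ J', i ≠ j →
      ∀ Y C : LinearMap.ker φ, (Y : V) = y l - φ (y l) • o → (C : V) = c l →
      w (φ (y l)) i + w (φ (y l)) j + Y ∉ AddSubgroup.zmultiples C := by
    intro l hl hcl i hi j hj hij Y C hY hC h0
    have hil : i ≠ l := fun h => hφ' i hi (h ▸ hcl)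
    have hjl : j ≠ l := fun h => hφ' j hj (h ▸ hcl)
    have h1 := up_one φ h0
    rw [hC] at h1
    refine hno i (hJ'J i hi) j (hJ'J j hj) l hl hij hil hjl _ (hw (φ (y l)) i hi) _
      (hw (φ (y l)) j hj) _ h1 ?_
    have e : y i - ((w (φ (y l)) i : V) + φ (y l) • o) + (y j - ((w (φ (y l)) j : V) + φ (y l) • o))
        + ((w (φ (y l)) i + w (φ (y l)) j + Y : LinearMap.ker φ) : V) =
        y i + y j + y l - (φ (y l) • o + φ (y l) • o + φ (y l) • o) := by
      rw [Submodule.coe_add, Submodule.coe_add, hY]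
      abel
    rw [e, three_zero, sub_zero]
  have hYex : ∀ l, ∃ Y : LinearMap.ker φ, (Y : V) = y l - φ (y l) • o := fun l =>
    ⟨⟨y l - φ (y l) • o, by
      rw [LinearMap.mem_ker, map_sub, map_smul, ho, smul_eq_mul, mul_one, sub_self]⟩, rfl⟩
  have h19 : #J' ≤ 18 := f0K hK (hT 0)
  -- a line
  set L := J₀.filter fun i => ¬ φ (c i) ≠ 0 with hL
  have hLc : #J' + #L = 19 := by
    rw [← hcard]
    exact card_filter_add_card_filter_not _
  have hLm : ∀ l ∈ L, l ∈ J₀ ∧ φ (c l) = 0 := fun l hl => by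
    have h := mem_filter.1 hl
    exact ⟨h.1, not_not.1 h.2⟩
  obtain ⟨l, hl⟩ : L.Nonempty := card_pos.1 (by omega)
  obtain ⟨Y, hY⟩ := hYex l
  have h14 : #J' ≤ 13 := by
    refine f1K hK (hT (φ (y l))) (y := Y) (c := ⟨c l, LinearMap.mem_ker.2 (hLm l hl).2⟩) ?_ ?_
    · intro h0
      exact hc l (hJ₀ (hLm l hl).1) (congrArg Subtype.val h0)
    · intro i hi j hj hij
      exact hlvl l (hLm l hl).1 (hLm l hl).2 i hi j hj hij Y _ hY rfl
  -- two lines in the same level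
  obtain ⟨l₁, hl₁, l₂, hl₂, hll, hlev⟩ : ∃ l₁ ∈ L, ∃ l₂ ∈ L, l₁ ≠ l₂ ∧ φ (y l₁) = φ (y l₂) := by
    have h := exists_ne_map_eq_of_card_lt_of_maps_to (s := L) (t := (univ : Finset (ZMod 3)))
      (f := fun l => φ (y l)) (by
        rw [card_univ, ZMod.card]
        omega) (fun _ _ => mem_coe.2 (mem_univ _))
    exact h
  obtain ⟨Y₁, hY₁⟩ := hYex l₁
  obtain ⟨Y₂, hY₂⟩ := hYex l₂
  have h12 : #J' ≤ 12 := by
    refine f2K hK (hT (φ (y l₁))) (y₁ := Y₁) (c₁ := ⟨c l₁, LinearMap.mem_ker.2 (hLm l₁ hl₁).2⟩)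
      (y₂ := Y₂) (c₂ := ⟨c l₂, LinearMap.mem_ker.2 (hLm l₂ hl₂).2⟩) ?_ ?_ ?_ ?_ ?_
    · intro h0
      exact hc l₁ (hJ₀ (hLm l₁ hl₁).1) (congrArg Subtype.val h0)
    · intro h0
      exact hc l₂ (hJ₀ (hLm l₂ hl₂).1) (congrArg Subtype.val h0)
    · intro i hi j hj hij
      exact hlvl l₁ (hLm l₁ hl₁).1 (hLm l₁ hl₁).2 i hi j hj hij Y₁ _ hY₁ rfl
    · intro i hi j hj hij
      rw [hlev]
      exact hlvl l₂ (hLm l₂ hl₂).1 (hLm l₂ hl₂).2 i hi j hj hij Y₂ _ hY₂ rfl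
    · intro i hi h0
      have hil : i ≠ l₁ := fun h => hφ' i hi (h ▸ (hLm l₁ hl₁).2)
      have hil2 : i ≠ l₂ := fun h => hφ' i hi (h ▸ (hLm l₂ hl₂).2)
      obtain ⟨b, hb, d, hd, hbd⟩ := AddSubgroup.mem_sup.1 (up_two φ h0)
      refine hno i (hJ'J i hi) l₁ (hLm l₁ hl₁).1 l₂ (hLm l₂ hl₂).1 hil hil2 hll _
        (hw (φ (y l₁)) i hi) b hb d hd ?_
      rw [add_assoc _ b d, hbd, Submodule.coe_add, Submodule.coe_add, hY₁, hY₂, ← hlev]
      have e : y i - ((w (φ (y l₁)) i : V) + φ (y l₁) • o) +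
          ((w (φ (y l₁)) i : V) + (y l₁ - φ (y l₁) • o) + (y l₂ - φ (y l₁) • o)) =
          y i + y l₁ + y l₂ - (φ (y l₁) • o + φ (y l₁) • o + φ (y l₁) • o) := by abel
      rw [e, three_zero, sub_zero]
  omega

/-- **`p = 3`, rank four.** -/
theorem comp_three : Comp.{0, 0} 3 4 18 := red compV_three

end Pool.Agent.Lib.MPa7239a.W2
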