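import Pool.Agent.Lib.MP_a7239a_co.RN.DECON

/-!
# W2, module DECOC: the decomposition of `RN.DECON` for sets of at most `C n` elements
-/

set_option autoImplicit false

universe u

open Finset
open scoped Pointwise

namespace Pool.Agent.Lib.MPa7239a.W2

open Pool.Agent.Lib.MPa7239a.GC (Hit)
open Pool.Agent.Lib.MPa7239a.RN

open Pool.Agent.Lib.MPa7239a.RN.DECONM in
theorem decoC (r : ℕ) (hr : 1 ≤ r) (e : ℕ) (he : 1 ≤ e) (C : ℕ) (F : ℕ → ℕ) : ∃ Kmax n₀ : ℕ,
    ∀ n : ℕ, n₀ ≤ n → ∀ (G : Type u) [AddCommGroup G] [Finite G], (∀ x : G, n • x = 0) →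
    Nat.card G ≤ n ^ r → ∀ A : Finset G, #A ≤ C * n → ∃ K ≤ Kmax,
      ∃ (B : Fin K → Finset G) (x : Fin K → G) (H : Fin K → AddSubgroup G) (q : Fin K → ℕ),
        (∀ c, B c ⊆ A) ∧ (∀ c c', c ≠ c' → Disjoint (B c) (B c')) ∧
        e * #A ≤ e * (∑ c, #(B c)) + n ∧ ∀ c, F K * q c ≤ n ∧ FullC (B c) (x c) (H c) (q c) := by
  classical
  set R := 8 * e * C * r with hR
  set l := 4 * e * (R + 1) with hl
  have hl1 : 1 ≤ l := Nat.mul_pos (by omega) (Nat.succ_pos R)
  obtain ⟨N, n₀, h⟩ := main.{u} r hr e l he hl1 F R 1 1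
  refine ⟨N, n₀ + 1, fun n hn G _ _ hG hc A hA => ?_⟩
  have hS : Stt r n 1 A (fun _ : Unit => A) (fun _ => 0) (fun _ => ⊤) (fun _ => 0) := by
    refine ⟨fun _ => subset_rfl, fun c c' hcc => absurd (Subsingleton.elim c c') hcc,
      fun _ _ _ => AddSubgroup.mem_top _, fun _ => ?_, fun _ => Nat.zero_le _⟩
    have : Nat.card (⊤ : AddSubgroup G) = Nat.card G := AddSubgroup.card_top
    rw [pow_zero, mul_one, one_mul, this]
    exact hc
  have hE : 8 * e * ∑ _j : Unit, #A * (r - 0) ≤ R * n := by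
    rw [Fintype.sum_unique]
    calc 8 * e * (#A * (r - 0)) = 8 * e * (#A * r) := by rw [Nat.sub_zero]
      _ ≤ 8 * e * (C * n * r) := Nat.mul_le_mul_left _ (Nat.mul_le_mul_right _ hA)
      _ = R * n := by rw [hR]; ring
  obtain ⟨ι, i1, B, x, H, q, a1, a2, a3, a4, a5⟩ := h n (by omega) (by omega) G hG hc A Unit
    (fun _ => A) (fun _ => 0) (fun _ => ⊤) (fun _ => 0) (by simp) hS hE
  set E := Fintype.equivFin ι with hE'
  refine ⟨Fintype.card ι, a1, fun c => B (E.symm c), fun c => x (E.symm c),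
    fun c => H (E.symm c), fun c => q (E.symm c), fun c => a2 _, ?_, ?_, fun c => a5 _⟩
  · intro c c' hcc
    exact a3 _ _ fun h => hcc (E.symm.injective h)
  · rw [Fintype.sum_unique] at a4
    have h1 : ∑ c, #(B (E.symm c)) = ∑ c, #(B c) := Equiv.sum_comp E.symm (fun c => #(B c))
    rw [h1]
    have h2 : (l + 4 * e * (R + 1)) * n = 2 * l * n := by rw [← hl]; ring
    rw [h2] at a4
    have h3 : 2 * l * (2 * e * #A) ≤ 2 * l * (2 * e * (∑ c, #(B c)) + n) := by
      have h4 : 2 * l * (2 * e * #A) = 4 * e * l * #A := by ring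
      have h5 : 2 * l * (2 * e * (∑ c, #(B c)) + n) = 4 * e * l * (∑ c, #(B c)) + 2 * l * n := by
        ring
      omega
    have h6 := Nat.le_of_mul_le_mul_left h3 (by omega)
    have h7 : 2 * (e * #A) ≤ 2 * (e * (∑ c, #(B c)) + n) := by
      have h8 : 2 * (e * #A) = 2 * e * #A := by ring
      have h9 : 2 * (e * (∑ c, #(B c)) + n) = 2 * e * (∑ c, #(B c)) + 2 * n := by ring
      omega
    exact Nat.le_of_mul_le_mul_left h7 (by norm_num)

end Pool.Agent.Lib.MPa7239a.W2
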