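import Pool.Agent.Lib.MP_a7239a_co.AR.Defs

/-!
# W2, module ELS: nine points, `n` odd (a configuration of the type of Elsholtz)
-/

set_option autoImplicit false

open Finset

namespace Pool.Agent.Lib.MPa7239a.W2

open Pool.Agent.Lib.MPa7239a.AR (egz)

namespace ELSM

/-- the nine points -/
def pt : Fin 9 → Fin 3 → ℕ :=
  ![![0, 0, 0], ![0, 0, 1], ![0, 1, 0], ![0, 1, 1], ![1, 0, 0], ![1, 0, 1], ![1, 1, 2],
    ![1, 2, 2], ![2, 1, 2]]

theorem num {n b0 b1 b2 b3 b4 b5 b6 b7 b8 x y z : ℕ} (hn : n % 2 = 1) (h0 : b0 ≤ n - 1)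
    (h1 : b1 ≤ n - 1) (h2 : b2 ≤ n - 1) (h3 : b3 ≤ n - 1) (h4 : b4 ≤ n - 1) (h5 : b5 ≤ n - 1)
    (h6 : b6 ≤ n - 1) (h7 : b7 ≤ n - 1) (h8 : b8 ≤ n - 1)
    (hs : b0 + b1 + b2 + b3 + b4 + b5 + b6 + b7 + b8 = n)
    (hx : b4 + b5 + b6 + b7 + 2 * b8 = n * x) (hy : b2 + b3 + b6 + 2 * b7 + b8 = n * y)
    (hz : b1 + b3 + b5 + 2 * b6 + 2 * b7 + 2 * b8 = n * z) : False := by
  have n1 : 1 ≤ n := by omega
  have x2 : x ≤ 2 := by
    by_contra h
    have : n * 3 ≤ n * x := Nat.mul_le_mul_left _ (by omega)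
    omega
  have y2 : y ≤ 2 := by
    by_contra h
    have : n * 3 ≤ n * y := Nat.mul_le_mul_left _ (by omega)
    omega
  have z2 : z ≤ 2 := by
    by_contra h
    have : n * 3 ≤ n * z := Nat.mul_le_mul_left _ (by omega)
    omega
  interval_cases x <;> interval_cases y <;> interval_cases z <;> omega

theorem main {n : ℕ} (hn : n % 2 = 1) (T : Finset (Fin 9 × Fin (n - 1))) (hT : #T = n) :
    ∑ i ∈ T, (fun j : Fin 3 => ((pt i.1 j : ℕ) : ZMod n)) ≠ 0 := by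
  intro h0
  set b : Fin 9 → ℕ := fun k => #(T.filter fun i => i.1 = k) with hb
  have hb1 : ∀ k, b k ≤ n - 1 := by
    intro k
    calc b k ≤ #((univ : Finset (Fin (n - 1))).image fun l => (k, l)) := by
          refine card_le_card fun i hi => ?_
          rw [mem_image]
          exact ⟨i.2, mem_univ _, Prod.ext (mem_filter.1 hi).2.symm rfl⟩
      _ ≤ #(univ : Finset (Fin (n - 1))) := card_image_le
      _ = n - 1 := by rw [card_univ, Fintype.card_fin]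
  have hbs : ∑ k, b k = n := by
    rw [← hT]
    exact (card_eq_sum_card_fiberwise fun i _ => mem_coe.2 (mem_univ i.1)).symm
  have hc : ∀ j : Fin 3, ∃ x, ∑ k, b k * pt k j = n * x := by
    intro j
    have h1 := congrFun h0 j
    rw [Finset.sum_apply, Pi.zero_apply, ← Nat.cast_sum, ZMod.natCast_eq_zero_iff] at h1
    obtain ⟨x, hx⟩ := h1
    refine ⟨x, ?_⟩
    rw [← hx, ← sum_fiberwise_of_maps_to (s := T) (t := univ) (g := fun i => i.1)
      (fun i _ => mem_univ _)]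
    refine sum_congr rfl fun k _ => ?_
    rw [sum_congr rfl (fun i hi => by rw [(mem_filter.1 hi).2] :
      ∀ i ∈ T.filter (fun i => i.1 = k), pt i.1 j = pt k j), sum_const, smul_eq_mul]
  obtain ⟨x, hx⟩ := hc 0
  obtain ⟨y, hy⟩ := hc 1
  obtain ⟨z, hz⟩ := hc 2
  have h9 : ∀ f : Fin 9 → ℕ, ∑ k, f k = f 0 + f 1 + f 2 + f 3 + f 4 + f 5 + f 6 + f 7 + f 8 := by
    intro f
    rw [Fin.sum_univ_castSucc, Fin.sum_univ_eight]
    rfl
  rw [h9] at hbs hx hy hz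
  have p0 : ∀ j, pt 0 j = (![0, 0, 0] : Fin 3 → ℕ) j := fun _ => rfl
  refine num hn (hb1 0) (hb1 1) (hb1 2) (hb1 3) (hb1 4) (hb1 5) (hb1 6) (hb1 7) (hb1 8)
    (x := x) (y := y) (z := z) hbs ?_ ?_ ?_
  · rw [← hx]
    show _ = b 0 * 0 + b 1 * 0 + b 2 * 0 + b 3 * 0 + b 4 * 1 + b 5 * 1 + b 6 * 1 + b 7 * 1 + b 8 * 2
    ring
  · rw [← hy]
    show _ = b 0 * 0 + b 1 * 0 + b 2 * 1 + b 3 * 1 + b 4 * 0 + b 5 * 0 + b 6 * 1 + b 7 * 2 + b 8 * 1
    ring
  · rw [← hz]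
    show _ = b 0 * 0 + b 1 * 1 + b 2 * 0 + b 3 * 1 + b 4 * 0 + b 5 * 1 + b 6 * 2 + b 7 * 2 + b 8 * 2
    ring

end ELSM

/-- the set in the definition of `egz` is nonempty -/
theorem egz_ne' {n : ℕ} (hn : 1 ≤ n) (t : ℕ) : {s : ℕ | ∀ f : Fin s → (Fin t → ZMod n),
    ∃ T : Finset (Fin s), #T = n ∧ ∑ i ∈ T, f i = 0}.Nonempty := by
  classical
  have : NeZero n := ⟨by omega⟩
  refine ⟨n * Fintype.card (Fin t → ZMod n), fun f => ?_⟩
  have h0 : 0 < Fintype.card (Fin t → ZMod n) := Fintype.card_pos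
  obtain ⟨v, -, hv⟩ := exists_lt_card_fiber_of_mul_lt_card_of_maps_to (s := univ)
    (t := (univ : Finset (Fin t → ZMod n))) (f := f) (n := n - 1) (fun _ _ => mem_univ _) (by
      rw [card_univ, card_univ, Fintype.card_fin, mul_comm]
      exact Nat.mul_lt_mul_of_pos_right (by omega) h0)
  obtain ⟨T, hT, hTc⟩ := exists_subset_card_eq (s := univ.filter fun i => f i = v) (n := n)
    (by omega)
  refine ⟨T, hTc, ?_⟩
  rw [sum_congr rfl fun i hi => (mem_filter.1 (hT hi)).2, sum_const, hTc]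
  ext k
  simp

/-- **Nine points.** -/
theorem egz_nine {n : ℕ} (hn : n % 2 = 1) : 9 * (n - 1) + 1 ≤ egz n 3 := by
  classical
  by_contra hcon
  have hmem := Nat.sInf_mem (egz_ne' (n := n) (by omega) 3)
  change ∀ f : Fin (egz n 3) → (Fin 3 → ZMod n),
    ∃ T : Finset (Fin (egz n 3)), #T = n ∧ ∑ i ∈ T, f i = 0 at hmem
  have hc : Fintype.card (Fin 9 × Fin (n - 1)) = 9 * (n - 1) := by
    rw [Fintype.card_prod, Fintype.card_fin, Fintype.card_fin]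
  let E := (Fintype.equivFinOfCardEq hc).symm
  let e : Fin (egz n 3) ↪ Fin (9 * (n - 1)) := Fin.castLEEmb (by omega)
  obtain ⟨T, hT, h0⟩ := hmem fun i => fun j : Fin 3 => ((ELSM.pt (E (e i)).1 j : ℕ) : ZMod n)
  refine ELSM.main hn (T.map (e.trans E.toEmbedding)) (by rw [card_map, hT]) ?_
  rw [sum_map]
  exact h0

end Pool.Agent.Lib.MPa7239a.W2
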