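import Pool.Agent.Lib.MP_a7239a_co.W2.LRG
import Pool.Agent.Lib.MP_a7239a_co.W2.COMPT
import Pool.Agent.Lib.MP_a7239a_co.W2.ELS
import Pool.Agent.Lib.MP_a7239a_co.RN.FINALR
import Pool.Agent.Lib.MP_a7239a_co.AR.LIFTX
import Pool.Agent.Lib.MP_a7239a_co.AR.EXPLX

/-!
# W2, module FIN: all ranks, in terms of `tauHat`
-/

set_option autoImplicit false

open Finset

namespace Pool.Agent.Lib.MPa7239a.W2

open Pool.Agent.Lib.MPa7239a.GC (Hit)
open Pool.Agent.Lib.MPa7239a.RN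
open Pool.Agent.Lib.MPa7239a.AR (egz)

/-- every sequence in the definition of `egz` has at least `p` terms -/
theorem egz_ge {p : ℕ} [Fact p.Prime] (t : ℕ) : p ≤ egz p t := by
  obtain ⟨T, hT, -⟩ := Nat.sInf_mem (egz_ne (p := p) t) (fun _ => 0)
  calc p = #T := hT.symm
    _ ≤ Fintype.card (Fin (egz p t)) := card_le_univ T
    _ = egz p t := Fintype.card_fin _

/-- one prime -/
theorem up_prime (p : ℕ) (hp : p.Prime) (t R : ℕ) (hR : 1 ≤ R) (ε : ℝ) (hε : 0 < ε) :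
    ∃ κ : ℝ, 0 < κ ∧ ∃ n₀ : ℕ,
    ∀ (n : ℕ), n₀ ≤ n → ∀ (G : Type) [AddCommGroup G] [Finite G], (∀ g : G, n • g = 0) →
    Nat.card G ≤ n ^ R → ∀ e : ℕ, e ∣ n →
    (Nat.card {g : G // e • g = 0} : ℝ) ≤ κ * n → (∀ g : G, ∃ a, p ^ a • (e • g) = 0) →
    Nat.card {g : G // (∃ u, e • u = g) ∧ p • g = 0} ≤ p ^ (t + 1) →
    ∀ A : Finset G, ((p * ((egz p t : ℝ) - 1)) / ((p : ℝ) - 1) ^ 2 + ε) * n ≤ #A → Hit A n 0 := by
  have : Fact p.Prime := ⟨hp⟩
  obtain ⟨κ, hκ, n₀, h⟩ := upperW.{0} p (t + 1) ((egz p t - 1) * p / (p - 1)) hp (comp_all t) R hR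
    ε hε
  refine ⟨κ, hκ, n₀, fun n hn G _ _ hG hcard e he hker hpg hrank A hA =>
    h n hn G hG hcard e he hker hpg hrank A (le_trans ?_ hA)⟩
  have h1 : 1 ≤ egz p t := hp.one_lt.le.trans (egz_ge t)
  have hp2 : (2 : ℝ) ≤ p := by exact_mod_cast hp.two_le
  have hp0 : (0 : ℝ) < p - 1 := by linarith
  have h2 : (((egz p t - 1) * p / (p - 1) : ℕ) : ℝ) ≤ ((egz p t : ℝ) - 1) * p / (p - 1) := by
    refine Nat.cast_div_le.trans (le_of_eq ?_)
    rw [Nat.cast_mul, Nat.cast_sub h1, Nat.cast_sub hp.one_lt.le, Nat.cast_one]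
  have h3 : (((egz p t - 1) * p / (p - 1) : ℕ) : ℝ) / (p - 1) ≤
      (p * ((egz p t : ℝ) - 1)) / ((p : ℝ) - 1) ^ 2 := by
    rw [div_le_iff₀ hp0]
    refine h2.trans (le_of_eq ?_)
    field_simp
  gcongr

/-- finitely many primes -/
theorem up_small (P t R : ℕ) (hR : 1 ≤ R) (ε : ℝ) (hε : 0 < ε) : ∃ κ : ℝ, 0 < κ ∧ ∃ n₀ : ℕ,
    ∀ p : ℕ, p.Prime → p < P →
    ∀ (n : ℕ), n₀ ≤ n → ∀ (G : Type) [AddCommGroup G] [Finite G], (∀ g : G, n • g = 0) →
    Nat.card G ≤ n ^ R → ∀ e : ℕ, e ∣ n →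
    (Nat.card {g : G // e • g = 0} : ℝ) ≤ κ * n → (∀ g : G, ∃ a, p ^ a • (e • g) = 0) →
    Nat.card {g : G // (∃ u, e • u = g) ∧ p • g = 0} ≤ p ^ (t + 1) →
    ∀ A : Finset G, ((p * ((egz p t : ℝ) - 1)) / ((p : ℝ) - 1) ^ 2 + ε) * n ≤ #A → Hit A n 0 := by
  induction P with
  | zero => exact ⟨1, one_pos, 0, fun p _ h => absurd h (Nat.not_lt_zero p)⟩
  | succ P ih =>
    obtain ⟨κ₁, hκ₁, n₁, h₁⟩ := ih
    by_cases hP : P.Prime
    · obtain ⟨κ₂, hκ₂, n₂, h₂⟩ := up_prime P hP t R hR ε hε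
      refine ⟨min κ₁ κ₂, lt_min hκ₁ hκ₂, max n₁ n₂,
        fun p hp hpP n hn G _ _ hG hcard e he hker hpg hrank A hA => ?_⟩
      rcases Nat.lt_or_ge p P with h | h
      · exact h₁ p hp h n ((le_max_left _ _).trans hn) G hG hcard e he
          (hker.trans (by gcongr; exact min_le_left _ _)) hpg hrank A hA
      · obtain rfl : p = P := by omega
        exact h₂ n ((le_max_right _ _).trans hn) G hG hcard e he
          (hker.trans (by gcongr; exact min_le_right _ _)) hpg hrank A hA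
    · refine ⟨κ₁, hκ₁, n₁, fun p hp hpP => h₁ p hp ?_⟩
      have : p ≠ P := fun h => hP (h ▸ hp)
      omega

/-- the constant for all primes is at least the one for large primes -/
theorem const_le {p : ℕ} [Fact p.Prime] (t : ℕ) :
    (egz p t : ℝ) / p ≤ (p * ((egz p t : ℝ) - 1)) / ((p : ℝ) - 1) ^ 2 := by
  have hp2 : (2 : ℝ) ≤ p := by exact_mod_cast (Fact.out : p.Prime).two_le
  have h1 : (p : ℝ) ≤ egz p t := by exact_mod_cast egz_ge (p := p) t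
  have hp0 : (0 : ℝ) < ((p : ℝ) - 1) ^ 2 := by
    have : (0 : ℝ) < p - 1 := by linarith
    positivity
  rw [div_le_div_iff₀ (by linarith) hp0]
  nlinarith

/-- the upper bounds for one rank -/
theorem up_one (t R : ℕ) (hR : 1 ≤ R) (ε : ℝ) (hε : 0 < ε) : ∃ κ : ℝ, 0 < κ ∧ ∃ n₀ : ℕ,
    ∀ (n : ℕ), n₀ ≤ n → ∀ (G : Type) [AddCommGroup G] [Finite G], (∀ g : G, n • g = 0) →
    Nat.card G ≤ n ^ R → ∀ e p : ℕ, p.Prime → e ∣ n →
    (Nat.card {g : G // e • g = 0} : ℝ) ≤ κ * n → (∀ g : G, ∃ a, (p ^ a * e) • g = 0) →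
    Nat.card {g : G // (∃ u, e • u = g) ∧ p • g = 0} ≤ p ^ (t + 1) →
    (p = 2 → (tauHat G n : ℝ) ≤ (2 ^ t + ε) * n) ∧
    (p = 3 → t = 3 → (tauHat G n : ℝ) ≤ (9 + ε) * n) ∧
    (n₀ ≤ p → (tauHat G n : ℝ) ≤ (egz p t / p + ε) * n) ∧
    (tauHat G n : ℝ) ≤ ((p * ((egz p t : ℝ) - 1)) / ((p : ℝ) - 1) ^ 2 + ε) * n := by
  obtain ⟨κ₁, hκ₁, n₁, h₁⟩ := upperW.{0} 2 (t + 1) (2 ^ t) Nat.prime_two
    (by simpa using comp_two (r := t + 1) (by omega)) R hR ε hε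
  obtain ⟨κ₂, hκ₂, n₂, h₂⟩ := upperL t R hR ε hε
  obtain ⟨κ₃, hκ₃, n₃, h₃⟩ := up_small n₂ t R hR ε hε
  obtain ⟨κ₄, hκ₄, n₄, h₄⟩ := upperW.{0} 3 4 18 Nat.prime_three comp_three R hR ε hε
  refine ⟨min (min κ₁ κ₄) (min κ₂ κ₃), lt_min (lt_min hκ₁ hκ₄) (lt_min hκ₂ hκ₃),
    max (max n₁ n₂) (max n₃ (max n₄ 1)), fun n hn G _ _ hG hcard e p hp he hker hpg hrank => ?_⟩
  have hn1 : 1 ≤ n := (le_max_right _ _).trans ((le_max_right _ _).trans
    ((le_max_right _ _).trans hn))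
  have hn4 : n₄ ≤ n := (le_max_left _ _).trans ((le_max_right _ _).trans
    ((le_max_right _ _).trans hn))
  have hn2 : n₂ ≤ n := (le_max_right _ _).trans ((le_max_left _ _).trans hn)
  have hn3 : n₃ ≤ n := (le_max_left _ _).trans ((le_max_right _ _).trans hn)
  have hnR : (0 : ℝ) ≤ n := Nat.cast_nonneg n
  have : Fact p.Prime := ⟨hp⟩
  have hpg' : ∀ g : G, ∃ a, p ^ a • (e • g) = 0 := fun g => by
    obtain ⟨a, ha⟩ := hpg g
    exact ⟨a, by rw [smul_smul]; exact ha⟩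
  have hk1 : (Nat.card {g : G // e • g = 0} : ℝ) ≤ κ₁ * n :=
    hker.trans (mul_le_mul_of_nonneg_right ((min_le_left _ _).trans (min_le_left _ _)) hnR)
  have hk4 : (Nat.card {g : G // e • g = 0} : ℝ) ≤ κ₄ * n :=
    hker.trans (mul_le_mul_of_nonneg_right ((min_le_left _ _).trans (min_le_right _ _)) hnR)
  have hk2 : (Nat.card {g : G // e • g = 0} : ℝ) ≤ κ₂ * n :=
    hker.trans (mul_le_mul_of_nonneg_right ((min_le_right _ _).trans (min_le_left _ _)) hnR)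
  have hk3 : (Nat.card {g : G // e • g = 0} : ℝ) ≤ κ₃ * n :=
    hker.trans (mul_le_mul_of_nonneg_right ((min_le_right _ _).trans (min_le_right _ _)) hnR)
  have hlarge : n₂ ≤ p → (tauHat G n : ℝ) ≤ (egz p t / p + ε) * n := fun hp₀ =>
    FINALRM.tau_le hn1 fun A hA => h₂ p hp hp₀ n hn2 G hG hcard e he hk2 hpg' hrank A hA
  refine ⟨?_, ?_, fun hp₀ => hlarge ((le_max_right _ _).trans ((le_max_left _ _).trans hp₀)),
    ?_⟩
  · rintro rfl
    refine FINALRM.tau_le hn1 fun A hA => ?_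
    refine h₁ n ((le_max_left _ _).trans ((le_max_left _ _).trans hn)) G hG hcard e he hk1 hpg'
      hrank A ?_
    refine le_trans (le_of_eq ?_) hA
    push_cast
    norm_num
  · rintro rfl rfl
    refine FINALRM.tau_le hn1 fun A hA => ?_
    refine h₄ n hn4 G hG hcard e he hk4 hpg' hrank A ?_
    refine le_trans (le_of_eq ?_) hA
    push_cast
    norm_num
  · rcases Nat.lt_or_ge p n₂ with h | h
    · exact FINALRM.tau_le hn1 fun A hA => h₃ p hp h n hn3 G hG hcard e he hk3 hpg' hrank A hA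
    · refine (hlarge h).trans ?_
      have := const_le (p := p) t
      gcongr

/-- the upper bounds for all ranks less than `r` -/
theorem up_all (R : ℕ) (hR : 1 ≤ R) (ε : ℝ) (hε : 0 < ε) (r : ℕ) : ∃ κ : ℝ, 0 < κ ∧ ∃ n₀ : ℕ,
    ∀ (n : ℕ), n₀ ≤ n → ∀ (G : Type) [AddCommGroup G] [Finite G], (∀ g : G, n • g = 0) →
    Nat.card G ≤ n ^ R → ∀ t e p : ℕ, t < r → p.Prime → e ∣ n →
    (Nat.card {g : G // e • g = 0} : ℝ) ≤ κ * n → (∀ g : G, ∃ a, (p ^ a * e) • g = 0) →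
    Nat.card {g : G // (∃ u, e • u = g) ∧ p • g = 0} ≤ p ^ (t + 1) →
    (p = 2 → (tauHat G n : ℝ) ≤ (2 ^ t + ε) * n) ∧
    (p = 3 → t = 3 → (tauHat G n : ℝ) ≤ (9 + ε) * n) ∧
    (n₀ ≤ p → (tauHat G n : ℝ) ≤ (egz p t / p + ε) * n) ∧
    (tauHat G n : ℝ) ≤ ((p * ((egz p t : ℝ) - 1)) / ((p : ℝ) - 1) ^ 2 + ε) * n := by
  induction r with
  | zero => exact ⟨1, one_pos, 0, fun n _ G _ _ _ _ t e p ht => absurd ht (Nat.not_lt_zero t)⟩
  | succ r ih =>
    obtain ⟨κ₁, hκ₁, n₁, h₁⟩ := ih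
    obtain ⟨κ₂, hκ₂, n₂, h₂⟩ := up_one r R hR ε hε
    refine ⟨min κ₁ κ₂, lt_min hκ₁ hκ₂, max n₁ n₂,
      fun n hn G _ _ hG hcard t e p ht hp he hker hpg hrank => ?_⟩
    rcases Nat.lt_or_ge t r with h | h
    · obtain ⟨a1, a4, a2, a3⟩ := h₁ n ((le_max_left _ _).trans hn) G hG hcard t e p h hp he
        (hker.trans (by gcongr; exact min_le_left _ _)) hpg hrank
      exact ⟨a1, a4, fun hp₀ => a2 ((le_max_left _ _).trans hp₀), a3⟩
    · obtain rfl : t = r := by omega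
      obtain ⟨a1, a4, a2, a3⟩ := h₂ n ((le_max_right _ _).trans hn) G hG hcard e p hp he
        (hker.trans (by gcongr; exact min_le_right _ _)) hpg hrank
      exact ⟨a1, a4, fun hp₀ => a2 ((le_max_right _ _).trans hp₀), a3⟩

/-- the lower bounds -/
theorem low_all (G : Type) [AddCommGroup G] [Finite G] (n t : ℕ) (hn : 1 ≤ n)
    (χ : G →+ (Fin t → ZMod n)) (hχ : Function.Surjective χ) (hk : n - 1 ≤ Nat.card χ.ker) :
    egz n t ≤ tauHat G n + 1 ∧ 2 ^ t * (n - 1) ≤ tauHat G n ∧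
    (t = 3 → Odd n → 9 * (n - 1) ≤ tauHat G n) := by
  classical
  suffices h0 : egz n t ≤ tauHat G n + 1 ∧ 2 ^ t * (n - 1) ≤ tauHat G n by
    refine ⟨h0.1, h0.2, ?_⟩
    rintro rfl ho
    have h1 := egz_nine (Nat.odd_iff.1 ho)
    have h2 := h0.1
    omega
  constructor
  · rcases Nat.eq_zero_or_pos (egz n t) with h0 | h0
    · omega
    · obtain ⟨f, hf⟩ := AR.EXPLXM.egz_fin (n := n) (d := t) h0
      have := Fintype.ofFinite G
      have hmult : ∀ (x : Fin t → ZMod n) (T : Finset (Fin (egz n t - 1))),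
          (∀ i ∈ T, f i = x) → #T ≤ n - 1 := by
        intro x T hT
        by_contra hh
        obtain ⟨T', hT', hc⟩ := exists_subset_card_eq (s := T) (n := n) (by omega)
        refine hf T' hc ?_
        rw [sum_congr rfl fun i hi => hT i (hT' hi), sum_const, hc]
        ext k
        simp
      obtain ⟨k⟩ : Nonempty (Fin (n - 1) ↪ χ.ker) := Function.Embedding.nonempty_of_card_le (by
        rw [Fintype.card_fin, ← Nat.card_eq_fintype_card]
        exact hk)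
      choose g hg using hχ
      obtain ⟨A, hA, hA0⟩ := AR.LIFTXM.lift_gen (c := n - 1) (h := n) χ
        (fun x j => g x + (if h : j < n - 1 then ((k ⟨j, h⟩ : χ.ker) : G) else 0))
        (fun x j => by
          rw [map_add, hg]
          split_ifs with h
          · rw [χ.mem_ker.1 (k ⟨j, h⟩).2, add_zero]
          · rw [map_zero, add_zero])
        (fun x i hi j hj hij => by
          have h1 := add_left_cancel hij
          rw [dif_pos hi, dif_pos hj] at h1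
          have h2 := k.injective (Subtype.ext h1)
          simpa using h2) f hmult hf
      have h1 := (Pool.Agent.Lib.MPa7239a.le_tauHat_iff (G := G) hn #A).2 ⟨A, rfl, hA0⟩
      omega
  · obtain ⟨S, hS, hSc⟩ := FINALRM.exists_ker χ hk
    obtain ⟨A, hA, hA0⟩ := lowg hn χ hχ S hS hSc
    rw [← hA]
    exact FINALRM.le_tau hn hA0

end Pool.Agent.Lib.MPa7239a.W2
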