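import Pool.Agent.Lib.MP_a7239a_co.W2.UPW
import Pool.Agent.Lib.MP_a7239a_co.AR.MAIN

/-!
# W2, module LRG: the upper bound if `e G` is a `p`-group, `p` a large prime
-/

set_option autoImplicit false

open Finset
open scoped Pointwise

namespace Pool.Agent.Lib.MPa7239a.W2

open Pool.Agent.Lib.MPa7239a.GC (Hit)
open Pool.Agent.Lib.MPa7239a.RN
open Pool.Agent.Lib.MPa7239a.AR (egz egz_bound transversal)

/-- the vector space version: fewer than `p` lines -/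
theorem vec {p d : ℕ} [Fact p.Prime] {z : ℕ}
    (hz : ∀ (P : Type) [AddCommGroup P] [Module (ZMod p) P] [Fintype P],
      Module.finrank (ZMod p) P = d → ∀ (κ : Type) [DecidableEq κ] (X : Finset κ) (f : κ → P),
      z ≤ #X → ∃ T ⊆ X, #T = p ∧ ∑ i ∈ T, f i = 0)
    (V : Type) [AddCommGroup V] [Module (ZMod p) V] [Fintype V]
    (hfin : Module.finrank (ZMod p) V ≤ d + 1) {N : ℕ} (hN : N < p) (y h : Fin N → V)
    (W : Finset (Fin N)) (hW : ∀ c ∈ W, h c ≠ 0) (hWne : W.Nonempty)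
    (I : Finset (Σ _ : Fin N, ℕ)) (hI : ∀ i ∈ I, i.1 ∈ W) (hzI : z ≤ #I) :
    ∃ T ⊆ I, #T = p ∧ ∑ i ∈ T, y i.1 ∈
      AddSubgroup.closure ((fun i : (Σ _ : Fin N, ℕ) => h i.1) '' (T : Set (Σ _ : Fin N, ℕ))) := by
  classical
  obtain ⟨φ, hφ⟩ := transversal (p := p) (ι := Fin N) (by rw [Fintype.card_fin]; exact hN) h
  have hne : ∀ c ∈ W, φ (h c) ≠ 0 := fun c hc => hφ c (hW c hc)
  have hφ0 : φ ≠ 0 := by
    obtain ⟨c, hc⟩ := hWne
    intro h0
    exact hne c hc (by rw [h0]; rfl)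
  have hfr1 : 1 ≤ Module.finrank (ZMod p) V := by
    by_contra h0
    have h1 : Module.finrank (ZMod p) V = 0 := by omega
    have h2 : Subsingleton V := Module.finrank_zero_iff.1 h1
    apply hφ0
    ext v
    rw [Subsingleton.elim v 0, map_zero, map_zero]
  obtain ⟨d', hd'⟩ : ∃ d', Module.finrank (ZMod p) V = d' + 1 :=
    ⟨_, (Nat.sub_add_cancel hfr1).symm⟩
  have hker := AR.MAINM.finrank_ker hφ0 hd'
  -- virtual positions
  have hu : ∀ c, ∃ u : V, φ u = 0 ∧ (c ∈ W → y c - u ∈ AddSubgroup.zmultiples (h c)) := by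
    intro c
    by_cases hc : c ∈ W
    · obtain ⟨u, h1, h2⟩ := AR.MAINM.virt (L := Submodule.span (ZMod p) {h c})
        (Submodule.mem_span_singleton_self _) (hne c hc) (y c)
      refine ⟨u, h1, fun _ => ?_⟩
      obtain ⟨a, ha⟩ := Submodule.mem_span_singleton.1 h2
      have h4 : a • h c = a.val • h c := by
        conv_lhs => rw [← ZMod.natCast_zmod_val a]
        rw [Nat.cast_smul_eq_nsmul]
      rw [← ha, h4]
      exact AddSubgroup.nsmul_mem_zmultiples _ _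
    · exact ⟨0, map_zero _, fun h0 => absurd h0 hc⟩
  choose u hφu huH using hu
  obtain ⟨T, hTI, hT, hT0⟩ := hz (LinearMap.ker φ × (Fin (d - d') → ZMod p))
    (by
      rw [Module.finrank_prod, hker, Module.finrank_fin_fun]
      omega)
    (Σ _ : Fin N, ℕ) I (fun t => (⟨u t.1, LinearMap.mem_ker.2 (hφu t.1)⟩, 0)) hzI
  refine ⟨T, hTI, hT, ?_⟩
  have h0 : ∑ i ∈ T, u i.1 = 0 := by
    have h1 := congrArg (fun z : LinearMap.ker φ × (Fin (d - d') → ZMod p) => (z.1 : V)) hT0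
    simpa [Prod.fst_sum] using h1
  have h1 : ∑ i ∈ T, y i.1 = ∑ i ∈ T, (y i.1 - u i.1) := by
    rw [sum_sub_distrib, h0, sub_zero]
  rw [h1]
  refine AddSubgroup.sum_mem _ fun i hi => ?_
  have h2 := huH i.1 (hI i (hTI hi))
  refine (AddSubgroup.zmultiples_le.2 ?_) h2
  exact AddSubgroup.subset_closure ⟨i, mem_coe.2 hi, rfl⟩

theorem fin_le {p d : ℕ} [Fact p.Prime] {V : Type} [AddCommGroup V] [Module (ZMod p) V] [Finite V]
    (hcard : Nat.card V ≤ p ^ (d + 1)) : Module.finrank (ZMod p) V ≤ d + 1 := by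
  have h1 : Nat.card V = p ^ Module.finrank (ZMod p) V := by
    rw [Module.natCard_eq_pow_finrank (K := ZMod p), Nat.card_zmod]
  rw [h1] at hcard
  exact (Nat.pow_le_pow_iff_right (Fact.out : p.Prime).one_lt).1 hcard

/-- the cell problem for groups containing elements of order `p` of `e G`, `p` large -/
theorem sollrg {p d : ℕ} [Fact p.Prime] {z : ℕ}
    (hz : ∀ (P : Type) [AddCommGroup P] [Module (ZMod p) P] [Fintype P],
      Module.finrank (ZMod p) P = d → ∀ (κ : Type) [DecidableEq κ] (X : Finset κ) (f : κ → P),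
      z ≤ #X → ∃ T ⊆ X, #T = p ∧ ∑ i ∈ T, f i = 0)
    {n e f : ℕ} (hn : n = p * f) (hf : 1 ≤ f) (G : Type) [AddCommGroup G] [Finite G]
    (hG : ∀ g : G, n • g = 0)
    (hrank : Nat.card {g : G // (∃ u, e • u = g) ∧ p • g = 0} ≤ p ^ (d + 1)) {N : ℕ}
    (hN : N < p) (x : Fin N → G) (H : Fin N → AddSubgroup G) (m : Fin N → ℕ) (W : Finset (Fin N))
    (hx : ∀ c, ∃ u, e • u = f • x c)
    (hH : ∀ c ∈ W, ∃ h ∈ H c, (∃ u, e • u = h) ∧ p • h = 0 ∧ h ≠ 0)
    (hWne : W.Nonempty) (hm : z ≤ ∑ c ∈ W, m c / f) : Sol n x H m W := by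
  classical
  have hh : ∀ c, ∃ h : G, ((∃ u, e • u = h) ∧ p • h = 0) ∧ (c ∈ W → h ∈ H c ∧ h ≠ 0) := by
    intro c
    by_cases hc : c ∈ W
    · obtain ⟨h, h1, h2, h3, h4⟩ := hH c hc
      exact ⟨h, ⟨h2, h3⟩, fun _ => ⟨h1, h4⟩⟩
    · exact ⟨0, ⟨⟨0, smul_zero _⟩, smul_zero _⟩, fun h => absurd h hc⟩
  choose h hhY hhW using hh
  set Y := Yq G e p with hY
  have hxY : ∀ c, f • x c ∈ Y := fun c => mem_Yq.2 ⟨hx c, by
    rw [smul_smul, ← hn]
    exact hG _⟩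
  have hkill : ∀ y : Y, p • y = 0 := fun y => Subtype.ext (mem_Yq.1 y.2).2
  have hcard : Nat.card Y ≤ p ^ (d + 1) := by
    refine le_trans ?_ hrank
    exact Nat.card_le_card_of_injective
      (fun y : Y => (⟨y.1, mem_Yq.1 y.2⟩ : {g : G // (∃ u, e • u = g) ∧ p • g = 0}))
      fun y y' hyy => Subtype.ext
        (congrArg (fun t : {g : G // (∃ u, e • u = g) ∧ p • g = 0} => (t : G)) hyy)
  have hfin : @Module.finrank (ZMod p) Y _ _ (AddCommGroup.zmodModule hkill) ≤ d + 1 := by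
    exact @fin_le p d _ Y _ (AddCommGroup.zmodModule hkill) _ hcard
  obtain ⟨T, hTI, hT, hsum⟩ := @vec p d _ z hz Y _ (AddCommGroup.zmodModule hkill)
    (Fintype.ofFinite Y) hfin N hN (fun c => ⟨f • x c, hxY c⟩) (fun c => ⟨h c, hhY c⟩) W
    (fun c hc h0 => (hhW c hc).2 (congrArg Subtype.val h0)) hWne
    (W.sigma fun c => range (m c / f)) (fun i hi => (mem_sigma.1 hi).1)
    (by
      rw [card_sigma]
      refine hm.trans (le_of_eq (sum_congr rfl fun c _ => (card_range _).symm)))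
  refine sol_of hn hf x H m W T hTI hT ?_
  have h2 : ((∑ i ∈ T, (⟨f • x i.1, hxY i.1⟩ : Y) : Y) : G) = ∑ i ∈ T, f • x i.1 := by
    rw [AddSubgroup.val_finsetSum]
  rw [← h2]
  have h3 : AddSubgroup.closure ((fun i : (Σ _ : Fin N, ℕ) => (⟨h i.1, hhY i.1⟩ : Y)) ''
      (T : Set (Σ _ : Fin N, ℕ))) ≤
      (AddSubgroup.closure {y | ∃ i ∈ T, y ∈ H i.1}).comap Y.subtype := by
    rw [AddSubgroup.closure_le]
    rintro _ ⟨i, hi, rfl⟩
    show h i.1 ∈ AddSubgroup.closure {y | ∃ i ∈ T, y ∈ H i.1}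
    have hi' : i ∈ T := mem_coe.1 hi
    exact AddSubgroup.subset_closure ⟨i, hi', (hhW i.1 (mem_sigma.1 (hTI hi')).1).1⟩
  exact h3 hsum

/-- **The upper bound for large primes.** -/
theorem upperL (d : ℕ) (R : ℕ) (hR : 1 ≤ R) (ε : ℝ) (hε : 0 < ε) : ∃ κ : ℝ, 0 < κ ∧ ∃ n₀ : ℕ,
    ∀ p : ℕ, p.Prime → n₀ ≤ p → ∀ n : ℕ, n₀ ≤ n →
    ∀ (G : Type) [AddCommGroup G] [Finite G], (∀ g : G, n • g = 0) → Nat.card G ≤ n ^ R →
    ∀ e : ℕ, e ∣ n → (Nat.card {g : G // e • g = 0} : ℝ) ≤ κ * n →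
    (∀ g : G, ∃ a, p ^ a • (e • g) = 0) →
    Nat.card {g : G // (∃ u, e • u = g) ∧ p • g = 0} ≤ p ^ (d + 1) →
    ∀ A : Finset G, ((egz p d : ℝ) / p + ε) * n ≤ #A → Hit A n 0 := by
  classical
  set ε' : ℝ := min ε 1 with hε'
  have hε'0 : 0 < ε' := lt_min hε one_pos
  have hε'1 : ε' ≤ 1 := min_le_right _ _
  have hε'ε : ε' ≤ ε := min_le_left _ _
  obtain ⟨C, p₁, hegz⟩ := egz_bound d
  obtain ⟨Kmax, δ, hδ, n₁, hasm⟩ := assem.{0} R hR (C + 2) ε' hε'0 hε'1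
  obtain ⟨P, hP⟩ := exists_nat_ge (2 * ((Kmax : ℝ) + 1) / ε')
  refine ⟨δ / 2, by positivity, max (max n₁ 1) (max p₁ (max P (Kmax + 1))),
    fun p hpp hp₀ n hn G _ _ hG hcard e hen hker hpg hrank A hA => ?_⟩
  have : Fact p.Prime := ⟨hpp⟩
  have hn1 : n₁ ≤ n := (le_max_left _ _).trans ((le_max_left _ _).trans hn)
  have hn2 : 1 ≤ n := (le_max_right _ _).trans ((le_max_left _ _).trans hn)
  have hp1 : p₁ ≤ p := (le_max_left _ _).trans ((le_max_right _ _).trans hp₀)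
  have hpP : P ≤ p := (le_max_left _ _).trans ((le_max_right _ _).trans
    ((le_max_right _ _).trans hp₀))
  have hpK : Kmax + 1 ≤ p := (le_max_right _ _).trans ((le_max_right _ _).trans
    ((le_max_right _ _).trans hp₀))
  have hnR : (0 : ℝ) < n := by exact_mod_cast hn2
  have hpR : (0 : ℝ) < p := by exact_mod_cast hpp.pos
  obtain ⟨hC, hz⟩ := hegz p hp1
  set c₀ : ℝ := (egz p d : ℝ) / p with hc₀
  have hc₀0 : 0 ≤ c₀ := by positivity
  have hc₀C : c₀ ≤ C := by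
    rw [hc₀, div_le_iff₀ hpR]
    exact_mod_cast hC
  have hq : ((Kmax : ℝ) + 1) ≤ ε' / 2 * p := by
    have h1 : 2 * ((Kmax : ℝ) + 1) / ε' ≤ p := hP.trans (by exact_mod_cast hpP)
    rw [div_le_iff₀ hε'0] at h1
    linarith
  obtain ⟨K, hK, x, H, m, W, hW, hsum, hhit⟩ := hasm n hn1 G hG hcard c₀ hc₀0
    (by push_cast; linarith) A (le_trans (by gcongr) hA)
  have hKR : (K : ℝ) ≤ Kmax := by exact_mod_cast hK
  -- elements of order `p`
  have hord : ∀ c ∈ W, ∃ h ∈ H c, (∃ u, e • u = h) ∧ p • h = 0 ∧ h ≠ 0 := by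
    intro c hc
    obtain ⟨h, h1, h2, h3, h4⟩ := exists_ord (j := 1) hpp.one_lt.le le_rfl G hpg hrank (H c) (by
      rw [Nat.sub_self, pow_zero, mul_one]
      have h2 : δ / 2 * n < δ * n := by
        have : 0 < δ * n := by positivity
        linarith
      have h3 := (hker.trans_lt h2).trans_le (hW c hc)
      exact_mod_cast h3)
    refine ⟨h, h1, h2, by simpa using h3, ?_⟩
    rcases h4 with h4 | h4
    · omega
    · simpa using h4
  apply hhit
  -- `W` is nonempty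
  have hWne : W.Nonempty := by
    by_contra h
    rw [not_nonempty_iff_eq_empty] at h
    rw [h, sum_empty] at hsum
    have : 0 < (c₀ + ε' / 2) * n := by positivity
    linarith
  obtain ⟨cw, hcw⟩ := hWne
  -- `p * e ∣ n`
  obtain ⟨h₀, -, ⟨u₀, hu₀⟩, h₁, h₂⟩ := hord cw hcw
  obtain ⟨n', hn'⟩ := hen
  have hdvd : p ∣ n' := by
    have h3 : addOrderOf h₀ = p := addOrderOf_eq_prime h₁ h₂
    rw [← h3, addOrderOf_dvd_iff_nsmul_eq_zero, ← hu₀, smul_smul, mul_comm, ← hn']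
    exact hG _
  obtain ⟨f', hf'⟩ := hdvd
  set f : ℕ := e * f' with hf
  have hnf : n = p * f := by rw [hn', hf', hf]; ring
  have hf1 : 1 ≤ f := Nat.pos_of_ne_zero fun h => by rw [h, mul_zero] at hnf; omega
  refine sollrg hz hnf hf1 G hG hrank (by omega) x H m W
    (fun c => ⟨f' • x c, by rw [smul_smul]⟩) hord ⟨cw, hcw⟩ ?_
  have hfR : (0 : ℝ) < f := by exact_mod_cast hf1
  have hnfR : (n : ℝ) = (p : ℝ) * f := by rw [hnf]; push_cast; ring
  have h1 : ∑ c ∈ W, ((m c : ℝ) / f - 1) ≤ ((∑ c ∈ W, m c / f : ℕ) : ℝ) := by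
    push_cast
    refine sum_le_sum fun c _ => ?_
    have h2 := Nat.lt_div_mul_add (a := m c) (b := f) hf1
    have h3 : (m c : ℝ) < ((m c / f : ℕ) : ℝ) * f + f := by exact_mod_cast h2
    have h4 : (m c : ℝ) / f < ((m c / f : ℕ) : ℝ) + 1 := by
      rw [div_lt_iff₀ hfR]
      linarith
    linarith
  rw [sum_sub_distrib, ← sum_div, sum_const, nsmul_eq_mul, mul_one] at h1
  have hWK : (#W : ℝ) ≤ K := by
    have h5 := Finset.card_le_univ W
    rw [Fintype.card_fin] at h5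
    exact_mod_cast h5
  have h2 : (c₀ + ε' / 2) * p ≤ (∑ c ∈ W, (m c : ℝ)) / f := by
    rw [le_div_iff₀ hfR]
    calc (c₀ + ε' / 2) * p * f = (c₀ + ε' / 2) * n := by rw [hnfR]; ring
      _ ≤ _ := hsum
  have h3 : c₀ * p = egz p d := by
    rw [hc₀]
    field_simp
  have h5 : ((egz p d : ℕ) : ℝ) ≤ ((∑ c ∈ W, m c / f : ℕ) : ℝ) := by
    have h6 : (c₀ + ε' / 2) * (p : ℝ) = c₀ * p + ε' / 2 * p := by ring
    linarith
  exact_mod_cast h5

end Pool.Agent.Lib.MPa7239a.W2
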