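import Pool.Agent.Lib.MP_a7239a_co.W2.HARB
import Pool.Agent.Lib.MP_a7239a_co.AR.MAIN

/-!
# W2, module RED: reduction of `Comp` to vector spaces, and a bound for all primes
-/

set_option autoImplicit false

open Finset

namespace Pool.Agent.Lib.MPa7239a.W2

open Pool.Agent.Lib.MPa7239a.AR (egz egz_use)

/-- a finite vector space with at most `p ^ r` elements has dimension at most `r` -/
theorem fin_le' {p r : ℕ} [Fact p.Prime] {V : Type} [AddCommGroup V] [Module (ZMod p) V] [Finite V]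
    (hcard : Nat.card V ≤ p ^ r) : Module.finrank (ZMod p) V ≤ r := by
  have h1 : Nat.card V = p ^ Module.finrank (ZMod p) V := by
    rw [Module.natCard_eq_pow_finrank (K := ZMod p), Nat.card_zmod]
  rw [h1] at hcard
  exact (Nat.pow_le_pow_iff_right (Fact.out : p.Prime).one_lt).1 hcard

/-- the vector space version -/
def CompV (p r B : ℕ) [Fact p.Prime] : Prop := ∀ (V : Type) [AddCommGroup V] [Module (ZMod p) V]
  [Finite V], Module.finrank (ZMod p) V = r → ∀ (ι : Type) (y c : ι → V) (J : Finset ι),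
  (∀ i ∈ J, c i ≠ 0) → B < #J →
  ∃ T ⊆ J, #T = p ∧ ∑ i ∈ T, y i ∈ AddSubgroup.closure (c '' (T : Set ι))

/-- `finrank V ≤ r` is enough -/
theorem CompV.le {p r B : ℕ} [Fact p.Prime] (h : CompV p r B) (V : Type) [AddCommGroup V]
    [Module (ZMod p) V] [Finite V] (hV : Module.finrank (ZMod p) V ≤ r) (ι : Type) (y c : ι → V)
    (J : Finset ι) (hc : ∀ i ∈ J, c i ≠ 0) (hJ : B < #J) :
    ∃ T ⊆ J, #T = p ∧ ∑ i ∈ T, y i ∈ AddSubgroup.closure (c '' (T : Set ι)) := by
  obtain ⟨k, hk⟩ := Nat.exists_eq_add_of_le hV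
  obtain ⟨T, hT, hTp, hs⟩ := h (V × (Fin k → ZMod p))
    (by rw [Module.finrank_prod, Module.finrank_fin_fun, hk]) ι (fun i => (y i, 0))
    (fun i => (c i, 0)) J (fun i hi h0 => hc i hi (congrArg Prod.fst h0)) hJ
  refine ⟨T, hT, hTp, ?_⟩
  have h1 := AddSubgroup.mem_map_of_mem (AddMonoidHom.fst V (Fin k → ZMod p)) hs
  rw [map_sum, AddMonoidHom.map_closure, ← Set.image_comp] at h1
  exact h1

theorem red_aux {p r B : ℕ} [Fact p.Prime] (h : CompV p r B) (Y Q : Type) [AddCommGroup Y]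
    [AddCommGroup Q] [Module (ZMod p) Q] [Finite Q] (hQ : Nat.card Q ≤ p ^ r) (mk : Y →+ Q)
    (hmk : ∀ a : Y, mk a = 0 → ∃ v, a = p • v) (ι : Type) (y c : ι → Y)
    (J : Finset ι) (hc : ∀ i ∈ J, ∀ v : Y, c i ≠ p • v) (hJ : B < #J) :
    ∃ T ⊆ J, #T = p ∧ ∃ w : Y, ∑ i ∈ T, y i - p • w ∈ AddSubgroup.closure (c '' (T : Set ι)) := by
  obtain ⟨T, hT, hTp, hs⟩ := h.le Q (fin_le' hQ) ι (fun i => mk (y i)) (fun i => mk (c i)) J
    (fun i hi h0 => by
      obtain ⟨v, hv⟩ := hmk _ h0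
      exact hc i hi v hv) hJ
  refine ⟨T, hT, hTp, ?_⟩
  have h1 : AddSubgroup.closure ((fun i => mk (c i)) '' (T : Set ι)) =
      (AddSubgroup.closure (c '' (T : Set ι))).map mk := by
    rw [AddMonoidHom.map_closure, ← Set.image_comp]
    rfl
  rw [h1] at hs
  obtain ⟨z, hz, hze⟩ := hs
  have h2 : mk (∑ i ∈ T, y i - z) = 0 := by
    rw [map_sub, map_sum, hze, sub_self]
  obtain ⟨w, hw⟩ := hmk _ h2
  refine ⟨w, ?_⟩
  rw [← hw, sub_sub_cancel]
  exact hz

/-- the reduction -/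
theorem red {p r B : ℕ} [Fact p.Prime] (h : CompV p r B) : Comp.{0, 0} p r B := by
  classical
  intro Y _ _ h2 ι y c J hc hJ
  set f : Y →+ Y := nsmulAddMonoidHom (α := Y) p with hf
  have hk : ∀ q : Y ⧸ f.range, p • q = 0 := by
    intro q
    obtain ⟨v, rfl⟩ := QuotientAddGroup.mk_surjective q
    rw [← QuotientAddGroup.mk_nsmul, QuotientAddGroup.eq_zero_iff]
    exact ⟨v, rfl⟩
  refine @red_aux p r B _ h Y (Y ⧸ f.range) _ _ (AddCommGroup.zmodModule hk) _
    (by rw [card_quot]; exact h2) (QuotientAddGroup.mk' f.range) ?_ ι y c J hc hJ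
  intro a ha
  have h1 : a ∈ f.range := (QuotientAddGroup.eq_zero_iff a).1 ha
  obtain ⟨v, hv⟩ := h1
  exact ⟨v, hv.symm⟩

section
variable {p : ℕ} [Fact p.Prime]

/-- some form is nonzero at a proportion `1 - 1 / p` of the vectors -/
theorem average (V : Type) [AddCommGroup V] [Module (ZMod p) V] [Finite V] (ι : Type)
    (c : ι → V) (J : Finset ι) (hc : ∀ i ∈ J, c i ≠ 0) :
    ∃ φ : V →ₗ[ZMod p] ZMod p, (p - 1) * #J ≤ p * #(J.filter fun i => φ (c i) ≠ 0) := by
  classical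
  have : Finite (V →ₗ[ZMod p] ZMod p) := DFunLike.finite _
  have := Fintype.ofFinite (V →ₗ[ZMod p] ZMod p)
  by_contra hcon
  push Not at hcon
  have hp : 1 ≤ p := (Fact.out : p.Prime).one_lt.le
  set D := Fintype.card (V →ₗ[ZMod p] ZMod p) with hD
  have hD0 : 0 < D := Fintype.card_pos
  have h1 : ∑ φ : V →ₗ[ZMod p] ZMod p, p * #(J.filter fun i => φ (c i) ≠ 0) <
      ∑ _φ : V →ₗ[ZMod p] ZMod p, (p - 1) * #J :=
    sum_lt_sum_of_nonempty ⟨0, mem_univ _⟩ fun φ _ => hcon φ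
  have h2 : ∑ φ : V →ₗ[ZMod p] ZMod p, #(J.filter fun i => φ (c i) ≠ 0) =
      ∑ i ∈ J, #(univ.filter fun φ : V →ₗ[ZMod p] ZMod p => φ (c i) ≠ 0) := by
    simp only [card_filter]
    exact sum_comm
  have h3 : ∀ i ∈ J, p * #(univ.filter fun φ : V →ₗ[ZMod p] ZMod p => φ (c i) ≠ 0) =
      (p - 1) * D := by
    intro i hi
    have e1 := AR.HYPM.card_ker (p := p) (hc i hi)
    have e2 : Nat.card (AR.HYPM.ev (p := p) (c i)).ker =
        #(univ.filter fun φ : V →ₗ[ZMod p] ZMod p => φ (c i) = 0) := by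
      rw [← Fintype.card_subtype, ← Nat.card_eq_fintype_card]
      exact Nat.card_congr (Equiv.subtypeEquivRight fun φ => by
        rw [AddMonoidHom.mem_ker]
        rfl)
    have e3 := card_filter_add_card_filter_not (s := (univ : Finset (V →ₗ[ZMod p] ZMod p)))
      (fun φ => φ (c i) = 0)
    rw [card_univ, ← hD] at e3
    rw [e2, Nat.card_eq_fintype_card, ← hD] at e1
    set a := #(univ.filter fun φ : V →ₗ[ZMod p] ZMod p => φ (c i) = 0)
    have e4 : #(univ.filter fun φ : V →ₗ[ZMod p] ZMod p => φ (c i) ≠ 0) = D - a := by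
      change a + #(univ.filter fun φ : V →ₗ[ZMod p] ZMod p => φ (c i) ≠ 0) = D at e3
      omega
    rw [e4, Nat.mul_sub, Nat.sub_mul, one_mul, mul_comm p a, e1]
  rw [← mul_sum, h2, mul_sum, sum_congr rfl h3, sum_const, sum_const, card_univ, ← hD,
    smul_eq_mul, smul_eq_mul] at h1
  have h4 : #J * ((p - 1) * D) = D * ((p - 1) * #J) := by ring
  omega

/-- virtual points: a transversal form and enough vectors -/
theorem virt_points {t z : ℕ}
    (hz : ∀ (P : Type) [AddCommGroup P] [Module (ZMod p) P] [Fintype P],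
      Module.finrank (ZMod p) P = t → ∀ (κ : Type) [DecidableEq κ] (X : Finset κ) (f : κ → P),
      z ≤ #X → ∃ T ⊆ X, #T = p ∧ ∑ i ∈ T, f i = 0)
    (V : Type) [AddCommGroup V] [Module (ZMod p) V] [Finite V]
    (hfin : Module.finrank (ZMod p) V = t + 1) (ι : Type) (y c : ι → V) (J : Finset ι)
    (φ : V →ₗ[ZMod p] ZMod p) (hφ0 : φ ≠ 0) (hφ : ∀ i ∈ J, φ (c i) ≠ 0) (hzJ : z ≤ #J) :
    ∃ T ⊆ J, #T = p ∧ ∑ i ∈ T, y i ∈ AddSubgroup.closure (c '' (T : Set ι)) := by
  classical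
  have := Fintype.ofFinite V
  have hker := AR.MAINM.finrank_ker hφ0 hfin
  have hu : ∀ i, ∃ u : V, φ u = 0 ∧ (i ∈ J → y i - u ∈ AddSubgroup.zmultiples (c i)) := by
    intro i
    by_cases hi : i ∈ J
    · obtain ⟨u, h1, h2⟩ := AR.MAINM.virt (L := Submodule.span (ZMod p) {c i})
        (Submodule.mem_span_singleton_self _) (hφ i hi) (y i)
      refine ⟨u, h1, fun _ => ?_⟩
      obtain ⟨a, ha⟩ := Submodule.mem_span_singleton.1 h2
      have h4 : a • c i = a.val • c i := by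
        conv_lhs => rw [← ZMod.natCast_zmod_val a]
        rw [Nat.cast_smul_eq_nsmul]
      rw [← ha, h4]
      exact AddSubgroup.nsmul_mem_zmultiples _ _
    · exact ⟨0, map_zero _, fun h0 => absurd h0 hi⟩
  choose u hφu huH using hu
  obtain ⟨T, hTI, hT, hT0⟩ := hz (LinearMap.ker φ) hker ι J
    (fun i => ⟨u i, LinearMap.mem_ker.2 (hφu i)⟩) hzJ
  refine ⟨T, hTI, hT, ?_⟩
  have h0 : ∑ i ∈ T, u i = 0 := by
    have h1 := congrArg (fun z : LinearMap.ker φ => (z : V)) hT0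
    simpa using h1
  have h1 : ∑ i ∈ T, y i = ∑ i ∈ T, (y i - u i) := by
    rw [sum_sub_distrib, h0, sub_zero]
  rw [h1]
  refine AddSubgroup.sum_mem _ fun i hi => ?_
  refine (AddSubgroup.zmultiples_le.2 ?_) (huH i (hTI hi))
  exact AddSubgroup.subset_closure ⟨i, mem_coe.2 hi, rfl⟩

/-- the set in the definition of `egz` is nonempty -/
theorem egz_ne (t : ℕ) : {s : ℕ | ∀ f : Fin s → (Fin t → ZMod p),
    ∃ T : Finset (Fin s), #T = p ∧ ∑ i ∈ T, f i = 0}.Nonempty := by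
  classical
  have hp : 1 ≤ p := (Fact.out : p.Prime).one_lt.le
  refine ⟨p * Fintype.card (Fin t → ZMod p), fun f => ?_⟩
  have h0 : 0 < Fintype.card (Fin t → ZMod p) := Fintype.card_pos
  obtain ⟨v, -, hv⟩ := exists_lt_card_fiber_of_mul_lt_card_of_maps_to (s := univ)
    (t := (univ : Finset (Fin t → ZMod p))) (f := f) (n := p - 1) (fun _ _ => mem_univ _) (by
      rw [card_univ, card_univ, Fintype.card_fin, mul_comm]
      exact Nat.mul_lt_mul_of_pos_right (by omega) h0)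
  obtain ⟨T, hT, hTc⟩ := exists_subset_card_eq (s := univ.filter fun i => f i = v) (n := p)
    (by omega)
  refine ⟨T, hTc, ?_⟩
  rw [sum_congr rfl fun i hi => (mem_filter.1 (hT hi)).2, sum_const, hTc]
  ext k
  simp

/-- **All primes.** -/
theorem comp_all (t : ℕ) : Comp.{0, 0} p (t + 1) ((egz p t - 1) * p / (p - 1)) := by
  classical
  have hp : 2 ≤ p := (Fact.out : p.Prime).two_le
  refine red ?_
  intro V _ _ _ hV ι y c J hc hJ
  obtain ⟨φ, hφ⟩ := average (p := p) V ι c J hc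
  have h1 : (egz p t - 1) * p < (p - 1) * ((egz p t - 1) * p / (p - 1) + 1) :=
    Nat.lt_mul_div_succ _ (by omega)
  have h2 : (p - 1) * ((egz p t - 1) * p / (p - 1) + 1) ≤ (p - 1) * #J :=
    Nat.mul_le_mul_left _ hJ
  set J' := J.filter fun i => φ (c i) ≠ 0 with hJ'
  have h3 : p * (egz p t - 1) < p * #J' := by
    rw [mul_comm p (egz p t - 1)]
    omega
  have h4 : egz p t - 1 < #J' := Nat.lt_of_mul_lt_mul_left h3
  have hφ0 : φ ≠ 0 := by
    obtain ⟨i, hi⟩ : J'.Nonempty := card_pos.1 (by omega)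
    intro h0
    apply (mem_filter.1 hi).2
    rw [h0, LinearMap.zero_apply]
  obtain ⟨T, hT, hTp, hs⟩ := virt_points (p := p) (t := t) (z := egz p t)
    (fun P _ _ _ hP κ _ X f hX => egz_use (egz_ne t) P hP κ X f hX) V hV ι y c J' φ hφ0
    (fun i hi => (mem_filter.1 hi).2) (by omega)
  exact ⟨T, hT.trans (filter_subset _ _), hTp, hs⟩

end

end Pool.Agent.Lib.MPa7239a.W2
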