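import Mathlib

/-!
# W2, module THREE: systems of points and lines in `F_3 ^ 3` without zero-sum triples
-/

set_option autoImplicit false
set_option linter.unusedSectionVars false

open Finset

namespace Pool.Agent.Lib.MPa7239a.W2

namespace THREEM

section
variable {ι : Type} [DecidableEq ι]

/-- no three distinct members with sum `0` -/
def Fr (I : Finset ι) (β : ι → ZMod 3 × ZMod 3) (h : ι → ZMod 3) : Prop :=
  ∀ i ∈ I, ∀ j ∈ I, ∀ k ∈ I, i ≠ j → i ≠ k → j ≠ k → β i + β j + β k = 0 →
    h i + h j + h k ≠ 0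

/-- the row over `v` -/
def row (I : Finset ι) (β : ι → ZMod 3 × ZMod 3) (v : ZMod 3 × ZMod 3) : Finset ι :=
  I.filter fun i => β i = v

theorem mem_row {I : Finset ι} {β : ι → ZMod 3 × ZMod 3} {v : ZMod 3 × ZMod 3} {i : ι} :
    i ∈ row I β v ↔ i ∈ I ∧ β i = v := mem_filter

theorem three_v (v : ZMod 3 × ZMod 3) : v + v + v = 0 := by
  revert v
  decide

theorem three_h (v : ZMod 3) : v + v + v = 0 := by
  revert v
  decide

/-- three distinct members of a set of at least three elements -/
theorem exists_three {N : Finset ι} (h : 3 ≤ #N) :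
    ∃ i ∈ N, ∃ j ∈ N, ∃ k ∈ N, i ≠ j ∧ i ≠ k ∧ j ≠ k := by
  exact two_lt_card.1 (show 2 < #N by omega)

theorem row_two {I : Finset ι} {β : ι → ZMod 3 × ZMod 3} {h : ι → ZMod 3} (hf : Fr I β h)
    (v : ZMod 3 × ZMod 3) (x : ZMod 3) : #((row I β v).filter fun i => h i = x) ≤ 2 := by
  by_contra hc
  obtain ⟨i, hi, j, hj, k, hk, h1, h2, h3⟩ := two_lt_card.1 (not_le.1 hc)
  simp only [mem_filter, mem_row] at hi hj hk
  exact hf i hi.1.1 j hj.1.1 k hk.1.1 h1 h2 h3 (by rw [hi.1.2, hj.1.2, hk.1.2, three_v])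
    (by rw [hi.2, hj.2, hk.2, three_h])

theorem sum3 (N : Finset ι) (h : ι → ZMod 3) :
    #N = #(N.filter fun i => h i = 0) + #(N.filter fun i => h i = 1) +
      #(N.filter fun i => h i = 2) := by
  rw [card_eq_sum_card_fiberwise (s := N) (t := (univ : Finset (ZMod 3))) (f := h)
    (fun _ _ => mem_coe.2 (mem_univ _))]
  exact Fin.sum_univ_three _

theorem row_le {I : Finset ι} {β : ι → ZMod 3 × ZMod 3} {h : ι → ZMod 3} (hf : Fr I β h)
    (v : ZMod 3 × ZMod 3) : #(row I β v) ≤ 4 := by
  have h0 := row_two hf v 0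
  have h1 := row_two hf v 1
  have h2 := row_two hf v 2
  have hs := sum3 (row I β v) h
  have h3 : #((row I β v).filter fun i => h i = 0) = 0 ∨
      #((row I β v).filter fun i => h i = 1) = 0 ∨ #((row I β v).filter fun i => h i = 2) = 0 := by
    by_contra hc
    push Not at hc
    obtain ⟨i, hi⟩ := card_pos.1 (Nat.pos_of_ne_zero hc.1)
    obtain ⟨j, hj⟩ := card_pos.1 (Nat.pos_of_ne_zero hc.2.1)
    obtain ⟨k, hk⟩ := card_pos.1 (Nat.pos_of_ne_zero hc.2.2)
    simp only [mem_filter, mem_row] at hi hj hk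
    refine hf i hi.1.1 j hj.1.1 k hk.1.1 ?_ ?_ ?_ (by rw [hi.1.2, hj.1.2, hk.1.2, three_v])
      (by rw [hi.2, hj.2, hk.2]; decide)
    · rintro rfl
      have := hi.2.symm.trans hj.2
      revert this; decide
    · rintro rfl
      have := hi.2.symm.trans hk.2
      revert this; decide
    · rintro rfl
      have := hj.2.symm.trans hk.2
      revert this; decide
  omega

/-- a row with one height only -/
theorem row_const {I : Finset ι} {β : ι → ZMod 3 × ZMod 3} {h : ι → ZMod 3} (hf : Fr I β h)
    (v : ZMod 3 × ZMod 3) (hc : ∀ i ∈ row I β v, ∀ j ∈ row I β v, h i = h j) :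
    #(row I β v) ≤ 2 := by
  rcases (row I β v).eq_empty_or_nonempty with h0 | ⟨i, hi⟩
  · rw [h0, card_empty]
    omega
  · have h1 := row_two hf v (h i)
    rwa [filter_true_of_mem fun j hj => hc j hj i hi] at h1

theorem uniq' : ∀ x y a b : ZMod 3, (x = y ∨ a + x = 0 ∨ a + y = 0 ∨ b + x = 0 ∨ b + y = 0) ∨
    a = b := by decide

theorem uniq (x y a b : ZMod 3) (h1 : x ≠ y) (h2 : a + x ≠ 0) (h3 : a + y ≠ 0) (h4 : b + x ≠ 0)
    (h5 : b + y ≠ 0) : a = b := by
  have := uniq' x y a b
  tauto

/-- a row with two heights: the other two rows of a plane have at most four members -/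
theorem kl {I : Finset ι} {β : ι → ZMod 3 × ZMod 3} {h : ι → ZMod 3} (hf : Fr I β h)
    {v₀ v₁ v₂ : ZMod 3 × ZMod 3} (hv : v₀ + v₁ + v₂ = 0) (h01 : v₀ ≠ v₁) (h02 : v₀ ≠ v₂)
    (h12 : v₁ ≠ v₂) {i j : ι} (hi : i ∈ row I β v₀) (hj : j ∈ row I β v₀) (hij : h i ≠ h j) :
    #(row I β v₁) + #(row I β v₂) ≤ 4 := by
  have l1 := row_le hf v₁
  have l2 := row_le hf v₂
  rcases (row I β v₁).eq_empty_or_nonempty with e1 | ⟨b, hb⟩
  · rw [e1, card_empty]
    omega
  rcases (row I β v₂).eq_empty_or_nonempty with e2 | ⟨c, hc⟩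
  · rw [e2, card_empty]
    omega
  have key : ∀ a ∈ row I β v₀, ∀ b ∈ row I β v₁, ∀ c ∈ row I β v₂, (h b + h c) + h a ≠ 0 := by
    intro a ha b hb c hc h0
    rw [mem_row] at ha hb hc
    refine hf a ha.1 b hb.1 c hc.1 ?_ ?_ ?_ (by rw [ha.2, hb.2, hc.2, hv]) ?_
    · rintro rfl; exact h01 (ha.2.symm.trans hb.2)
    · rintro rfl; exact h02 (ha.2.symm.trans hc.2)
    · rintro rfl; exact h12 (hb.2.symm.trans hc.2)
    · rw [← h0]; ring
  have hb' : ∀ b ∈ row I β v₁, ∀ b' ∈ row I β v₁, h b = h b' := by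
    intro b hb b' hb'
    have := uniq (h i) (h j) (h b + h c) (h b' + h c) hij (key i hi b hb c hc)
      (key j hj b hb c hc) (key i hi b' hb' c hc) (key j hj b' hb' c hc)
    exact add_right_cancel this
  have hc' : ∀ c ∈ row I β v₂, ∀ c' ∈ row I β v₂, h c = h c' := by
    intro c hc c' hc'
    have := uniq (h i) (h j) (h b + h c) (h b + h c') hij (key i hi b hb c hc)
      (key j hj b hb c hc) (key i hi b hb c' hc') (key j hj b hb c' hc')
    exact add_left_cancel this
  have m1 := row_const hf v₁ hb'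
  have m2 := row_const hf v₂ hc'
  omega

/-- a plane has at most eight members -/
theorem plane {I : Finset ι} {β : ι → ZMod 3 × ZMod 3} {h : ι → ZMod 3} (hf : Fr I β h)
    {v₀ v₁ v₂ : ZMod 3 × ZMod 3} (hv : v₀ + v₁ + v₂ = 0) (h01 : v₀ ≠ v₁) (h02 : v₀ ≠ v₂)
    (h12 : v₁ ≠ v₂) : #(row I β v₀) + #(row I β v₁) + #(row I β v₂) ≤ 8 := by
  have l0 := row_le hf v₀
  have l1 := row_le hf v₁
  have l2 := row_le hf v₂
  by_cases c0 : ∀ i ∈ row I β v₀, ∀ j ∈ row I β v₀, h i = h j
  · by_cases c1 : ∀ i ∈ row I β v₁, ∀ j ∈ row I β v₁, h i = h j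
    · by_cases c2 : ∀ i ∈ row I β v₂, ∀ j ∈ row I β v₂, h i = h j
      · have m0 := row_const hf v₀ c0
        have m1 := row_const hf v₁ c1
        have m2 := row_const hf v₂ c2
        omega
      · push Not at c2
        obtain ⟨i, hi, j, hj, hij⟩ := c2
        have := kl hf (v₀ := v₂) (v₁ := v₀) (v₂ := v₁) (by rw [← hv]; ring) h02.symm h12.symm h01
          hi hj hij
        omega
    · push Not at c1
      obtain ⟨i, hi, j, hj, hij⟩ := c1
      have := kl hf (v₀ := v₁) (v₁ := v₀) (v₂ := v₂) (by rw [← hv]; ring) h01.symm h12 h02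
        hi hj hij
      omega
  · push Not at c0
    obtain ⟨i, hi, j, hj, hij⟩ := c0
    have := kl hf hv h01 h02 h12 hi hj hij
    omega

/-- the sum over the nine rows -/
theorem sum9 (I : Finset ι) (β : ι → ZMod 3 × ZMod 3) :
    #I = #(row I β (0, 0)) + #(row I β (0, 1)) + #(row I β (0, 2)) +
      (#(row I β (1, 0)) + #(row I β (1, 1)) + #(row I β (1, 2))) +
      (#(row I β (2, 0)) + #(row I β (2, 1)) + #(row I β (2, 2))) := by
  rw [card_eq_sum_card_fiberwise (s := I) (t := (univ : Finset (ZMod 3 × ZMod 3))) (f := β)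
    (fun _ _ => mem_coe.2 (mem_univ _)), Fintype.sum_prod_type]
  have h1 : ∀ f : ZMod 3 → ℕ, ∑ x, f x = f 0 + f 1 + f 2 := fun f => Fin.sum_univ_three f
  rw [h1, h1, h1, h1]
  rfl

/-- rows over `v`, `w` with `v + w = z` are not both nonempty -/
theorem pair_zero {I : Finset ι} {β : ι → ZMod 3 × ZMod 3} {z : ZMod 3 × ZMod 3}
    (hp : ∀ i ∈ I, ∀ j ∈ I, i ≠ j → β i + β j + z ≠ 0) {v w : ZMod 3 × ZMod 3}
    (hvw : v + w + z = 0) (hne : v ≠ w) : #(row I β v) = 0 ∨ #(row I β w) = 0 := by
  by_contra hc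
  push Not at hc
  obtain ⟨i, hi⟩ := card_pos.1 (Nat.pos_of_ne_zero hc.1)
  obtain ⟨j, hj⟩ := card_pos.1 (Nat.pos_of_ne_zero hc.2)
  rw [mem_row] at hi hj
  refine hp i hi.1 j hj.1 ?_ (by rw [hi.2, hj.2, hvw])
  rintro rfl
  exact hne (hi.2.symm.trans hj.2)

theorem self_one {I : Finset ι} {β : ι → ZMod 3 × ZMod 3} {z : ZMod 3 × ZMod 3}
    (hp : ∀ i ∈ I, ∀ j ∈ I, i ≠ j → β i + β j + z ≠ 0) {v : ZMod 3 × ZMod 3}
    (hv : v + v + z = 0) : #(row I β v) ≤ 1 := by
  refine card_le_one.2 fun i hi j hj => ?_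
  by_contra hij
  rw [mem_row] at hi hj
  exact hp i hi.1 j hj.1 hij (by rw [hi.2, hj.2, hv])

/-- **points and one line** -/
theorem f_one {I : Finset ι} {β : ι → ZMod 3 × ZMod 3} {h : ι → ZMod 3} (hf : Fr I β h)
    (hp : ∀ i ∈ I, ∀ j ∈ I, i ≠ j → β i + β j + 0 ≠ 0) :
    #I ≤ 13 ∧ #I ≤ 12 + #(row I β (0, 0)) := by
  have s := sum9 I β
  have p1 := pair_zero hp (v := (0, 1)) (w := (0, 2)) (by decide) (by decide)
  have p2 := pair_zero hp (v := (1, 0)) (w := (2, 0)) (by decide) (by decide)
  have p3 := pair_zero hp (v := (1, 1)) (w := (2, 2)) (by decide) (by decide)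
  have p4 := pair_zero hp (v := (1, 2)) (w := (2, 1)) (by decide) (by decide)
  have z0 := self_one hp (v := (0, 0)) (by decide)
  have r1 := row_le hf (0, 1)
  have r2 := row_le hf (0, 2)
  have r3 := row_le hf (1, 0)
  have r4 := row_le hf (2, 0)
  have r5 := row_le hf (1, 1)
  have r6 := row_le hf (2, 2)
  have r7 := row_le hf (1, 2)
  have r8 := row_le hf (2, 1)
  have l1 := plane hf (v₀ := (1, 0)) (v₁ := (1, 1)) (v₂ := (1, 2)) (by decide) (by decide)
    (by decide) (by decide)
  have l2 := plane hf (v₀ := (2, 0)) (v₁ := (2, 1)) (v₂ := (2, 2)) (by decide) (by decide)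
    (by decide) (by decide)
  have l3 := plane hf (v₀ := (0, 1)) (v₁ := (1, 1)) (v₂ := (2, 1)) (by decide) (by decide)
    (by decide) (by decide)
  have l4 := plane hf (v₀ := (0, 2)) (v₁ := (1, 2)) (v₂ := (2, 2)) (by decide) (by decide)
    (by decide) (by decide)
  have l5 := plane hf (v₀ := (0, 1)) (v₁ := (1, 2)) (v₂ := (2, 0)) (by decide) (by decide)
    (by decide) (by decide)
  have l6 := plane hf (v₀ := (0, 2)) (v₁ := (1, 0)) (v₂ := (2, 1)) (by decide) (by decide)
    (by decide) (by decide)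
  have l7 := plane hf (v₀ := (0, 1)) (v₁ := (1, 0)) (v₂ := (2, 2)) (by decide) (by decide)
    (by decide) (by decide)
  have l8 := plane hf (v₀ := (0, 2)) (v₁ := (1, 1)) (v₂ := (2, 0)) (by decide) (by decide)
    (by decide) (by decide)
  rcases p1 with p1 | p1 <;> rcases p2 with p2 | p2 <;> rcases p3 with p3 | p3 <;>
    rcases p4 with p4 | p4 <;> constructor <;> omega

theorem cases9 (z : ZMod 3 × ZMod 3) : z = (0, 0) ∨ z = (0, 1) ∨ z = (0, 2) ∨ z = (1, 0) ∨ z = (1, 1) ∨ z = (1, 2) ∨ z = (2, 0) ∨ z = (2, 1) ∨ z = (2, 2) := by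
  revert z
  decide

/-- **points and two parallel lines** -/
theorem f_two {I : Finset ι} {β : ι → ZMod 3 × ZMod 3} {h : ι → ZMod 3} (hf : Fr I β h)
    (hp : ∀ i ∈ I, ∀ j ∈ I, i ≠ j → β i + β j + 0 ≠ 0) (z : ZMod 3 × ZMod 3)
    (hq : ∀ i ∈ I, ∀ j ∈ I, i ≠ j → β i + β j + z ≠ 0) (hs : ∀ i ∈ I, β i + z ≠ 0) :
    #I ≤ 12 := by
  have s := sum9 I β
  have e0 : ∀ w : ZMod 3 × ZMod 3, w + z = 0 → #(row I β w) = 0 := by
    intro w hw
    rw [card_eq_zero]
    refine filter_eq_empty_iff.2 fun i hi hiw => hs i hi ?_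
    rw [hiw, hw]
  have z0 := self_one hp (v := (0, 0)) (by decide)
  rcases cases9 z with rfl | rfl | rfl | rfl | rfl | rfl | rfl | rfl | rfl
  · have f1 := (f_one hf hp).2
    have f2 := e0 (0, 0) (by decide)
    omega
  · have g0 := e0 (0, 2) (by decide)
    have g1 := self_one hq (v := (0, 1)) (by decide)
    have r1 := row_le hf (1, 0)
    have r2 := row_le hf (1, 1)
    have r3 := row_le hf (1, 2)
    have r4 := row_le hf (2, 0)
    have r5 := row_le hf (2, 1)
    have r6 := row_le hf (2, 2)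
    have l1 := plane hf (v₀ := (1, 0)) (v₁ := (1, 1)) (v₂ := (1, 2)) (by decide) (by decide)
      (by decide) (by decide)
    have l2 := plane hf (v₀ := (2, 0)) (v₁ := (2, 1)) (v₂ := (2, 2)) (by decide) (by decide)
      (by decide) (by decide)
    have p1 := pair_zero hp (v := (1, 0)) (w := (2, 0)) (by decide) (by decide)
    have p2 := pair_zero hp (v := (1, 1)) (w := (2, 2)) (by decide) (by decide)
    have p3 := pair_zero hp (v := (1, 2)) (w := (2, 1)) (by decide) (by decide)
    have q1 := pair_zero hq (v := (1, 0)) (w := (2, 2)) (by decide) (by decide)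
    have q2 := pair_zero hq (v := (1, 1)) (w := (2, 1)) (by decide) (by decide)
    have q3 := pair_zero hq (v := (1, 2)) (w := (2, 0)) (by decide) (by decide)
    omega
  · have g0 := e0 (0, 1) (by decide)
    have g1 := self_one hq (v := (0, 2)) (by decide)
    have r1 := row_le hf (1, 0)
    have r2 := row_le hf (1, 1)
    have r3 := row_le hf (1, 2)
    have r4 := row_le hf (2, 0)
    have r5 := row_le hf (2, 1)
    have r6 := row_le hf (2, 2)
    have l1 := plane hf (v₀ := (1, 0)) (v₁ := (1, 1)) (v₂ := (1, 2)) (by decide) (by decide)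
      (by decide) (by decide)
    have l2 := plane hf (v₀ := (2, 0)) (v₁ := (2, 1)) (v₂ := (2, 2)) (by decide) (by decide)
      (by decide) (by decide)
    have p1 := pair_zero hp (v := (1, 0)) (w := (2, 0)) (by decide) (by decide)
    have p2 := pair_zero hp (v := (1, 1)) (w := (2, 2)) (by decide) (by decide)
    have p3 := pair_zero hp (v := (1, 2)) (w := (2, 1)) (by decide) (by decide)
    have q1 := pair_zero hq (v := (1, 0)) (w := (2, 1)) (by decide) (by decide)
    have q2 := pair_zero hq (v := (1, 1)) (w := (2, 0)) (by decide) (by decide)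
    have q3 := pair_zero hq (v := (1, 2)) (w := (2, 2)) (by decide) (by decide)
    omega
  · have g0 := e0 (2, 0) (by decide)
    have g1 := self_one hq (v := (1, 0)) (by decide)
    have r1 := row_le hf (0, 1)
    have r2 := row_le hf (0, 2)
    have r3 := row_le hf (1, 1)
    have r4 := row_le hf (1, 2)
    have r5 := row_le hf (2, 1)
    have r6 := row_le hf (2, 2)
    have l1 := plane hf (v₀ := (0, 1)) (v₁ := (1, 1)) (v₂ := (2, 1)) (by decide) (by decide)
      (by decide) (by decide)
    have l2 := plane hf (v₀ := (0, 2)) (v₁ := (1, 2)) (v₂ := (2, 2)) (by decide) (by decide)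
      (by decide) (by decide)
    have p1 := pair_zero hp (v := (0, 1)) (w := (0, 2)) (by decide) (by decide)
    have p2 := pair_zero hp (v := (1, 1)) (w := (2, 2)) (by decide) (by decide)
    have p3 := pair_zero hp (v := (2, 1)) (w := (1, 2)) (by decide) (by decide)
    have q1 := pair_zero hq (v := (0, 1)) (w := (2, 2)) (by decide) (by decide)
    have q2 := pair_zero hq (v := (1, 1)) (w := (1, 2)) (by decide) (by decide)
    have q3 := pair_zero hq (v := (2, 1)) (w := (0, 2)) (by decide) (by decide)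
    omega
  · have g0 := e0 (2, 2) (by decide)
    have g1 := self_one hq (v := (1, 1)) (by decide)
    have r1 := row_le hf (0, 1)
    have r2 := row_le hf (0, 2)
    have r3 := row_le hf (1, 0)
    have r4 := row_le hf (1, 2)
    have r5 := row_le hf (2, 0)
    have r6 := row_le hf (2, 1)
    have l1 := plane hf (v₀ := (0, 1)) (v₁ := (1, 2)) (v₂ := (2, 0)) (by decide) (by decide)
      (by decide) (by decide)
    have l2 := plane hf (v₀ := (0, 2)) (v₁ := (1, 0)) (v₂ := (2, 1)) (by decide) (by decide)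
      (by decide) (by decide)
    have p1 := pair_zero hp (v := (0, 1)) (w := (0, 2)) (by decide) (by decide)
    have p2 := pair_zero hp (v := (1, 2)) (w := (2, 1)) (by decide) (by decide)
    have p3 := pair_zero hp (v := (2, 0)) (w := (1, 0)) (by decide) (by decide)
    have q1 := pair_zero hq (v := (0, 1)) (w := (2, 1)) (by decide) (by decide)
    have q2 := pair_zero hq (v := (1, 2)) (w := (1, 0)) (by decide) (by decide)
    have q3 := pair_zero hq (v := (2, 0)) (w := (0, 2)) (by decide) (by decide)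
    omega
  · have g0 := e0 (2, 1) (by decide)
    have g1 := self_one hq (v := (1, 2)) (by decide)
    have r1 := row_le hf (0, 1)
    have r2 := row_le hf (0, 2)
    have r3 := row_le hf (1, 0)
    have r4 := row_le hf (1, 1)
    have r5 := row_le hf (2, 0)
    have r6 := row_le hf (2, 2)
    have l1 := plane hf (v₀ := (0, 1)) (v₁ := (1, 0)) (v₂ := (2, 2)) (by decide) (by decide)
      (by decide) (by decide)
    have l2 := plane hf (v₀ := (0, 2)) (v₁ := (1, 1)) (v₂ := (2, 0)) (by decide) (by decide)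
      (by decide) (by decide)
    have p1 := pair_zero hp (v := (0, 1)) (w := (0, 2)) (by decide) (by decide)
    have p2 := pair_zero hp (v := (1, 0)) (w := (2, 0)) (by decide) (by decide)
    have p3 := pair_zero hp (v := (2, 2)) (w := (1, 1)) (by decide) (by decide)
    have q1 := pair_zero hq (v := (0, 1)) (w := (2, 0)) (by decide) (by decide)
    have q2 := pair_zero hq (v := (1, 0)) (w := (1, 1)) (by decide) (by decide)
    have q3 := pair_zero hq (v := (2, 2)) (w := (0, 2)) (by decide) (by decide)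
    omega
  · have g0 := e0 (1, 0) (by decide)
    have g1 := self_one hq (v := (2, 0)) (by decide)
    have r1 := row_le hf (0, 1)
    have r2 := row_le hf (0, 2)
    have r3 := row_le hf (1, 1)
    have r4 := row_le hf (1, 2)
    have r5 := row_le hf (2, 1)
    have r6 := row_le hf (2, 2)
    have l1 := plane hf (v₀ := (0, 1)) (v₁ := (1, 1)) (v₂ := (2, 1)) (by decide) (by decide)
      (by decide) (by decide)
    have l2 := plane hf (v₀ := (0, 2)) (v₁ := (1, 2)) (v₂ := (2, 2)) (by decide) (by decide)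
      (by decide) (by decide)
    have p1 := pair_zero hp (v := (0, 1)) (w := (0, 2)) (by decide) (by decide)
    have p2 := pair_zero hp (v := (1, 1)) (w := (2, 2)) (by decide) (by decide)
    have p3 := pair_zero hp (v := (2, 1)) (w := (1, 2)) (by decide) (by decide)
    have q1 := pair_zero hq (v := (0, 1)) (w := (1, 2)) (by decide) (by decide)
    have q2 := pair_zero hq (v := (1, 1)) (w := (0, 2)) (by decide) (by decide)
    have q3 := pair_zero hq (v := (2, 1)) (w := (2, 2)) (by decide) (by decide)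
    omega
  · have g0 := e0 (1, 2) (by decide)
    have g1 := self_one hq (v := (2, 1)) (by decide)
    have r1 := row_le hf (0, 1)
    have r2 := row_le hf (0, 2)
    have r3 := row_le hf (1, 0)
    have r4 := row_le hf (1, 1)
    have r5 := row_le hf (2, 0)
    have r6 := row_le hf (2, 2)
    have l1 := plane hf (v₀ := (0, 1)) (v₁ := (1, 0)) (v₂ := (2, 2)) (by decide) (by decide)
      (by decide) (by decide)
    have l2 := plane hf (v₀ := (0, 2)) (v₁ := (1, 1)) (v₂ := (2, 0)) (by decide) (by decide)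
      (by decide) (by decide)
    have p1 := pair_zero hp (v := (0, 1)) (w := (0, 2)) (by decide) (by decide)
    have p2 := pair_zero hp (v := (1, 0)) (w := (2, 0)) (by decide) (by decide)
    have p3 := pair_zero hp (v := (2, 2)) (w := (1, 1)) (by decide) (by decide)
    have q1 := pair_zero hq (v := (0, 1)) (w := (1, 1)) (by decide) (by decide)
    have q2 := pair_zero hq (v := (1, 0)) (w := (0, 2)) (by decide) (by decide)
    have q3 := pair_zero hq (v := (2, 2)) (w := (2, 0)) (by decide) (by decide)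
    omega
  · have g0 := e0 (1, 1) (by decide)
    have g1 := self_one hq (v := (2, 2)) (by decide)
    have r1 := row_le hf (0, 1)
    have r2 := row_le hf (0, 2)
    have r3 := row_le hf (1, 0)
    have r4 := row_le hf (1, 2)
    have r5 := row_le hf (2, 0)
    have r6 := row_le hf (2, 1)
    have l1 := plane hf (v₀ := (0, 1)) (v₁ := (1, 2)) (v₂ := (2, 0)) (by decide) (by decide)
      (by decide) (by decide)
    have l2 := plane hf (v₀ := (0, 2)) (v₁ := (1, 0)) (v₂ := (2, 1)) (by decide) (by decide)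
      (by decide) (by decide)
    have p1 := pair_zero hp (v := (0, 1)) (w := (0, 2)) (by decide) (by decide)
    have p2 := pair_zero hp (v := (1, 2)) (w := (2, 1)) (by decide) (by decide)
    have p3 := pair_zero hp (v := (2, 0)) (w := (1, 0)) (by decide) (by decide)
    have q1 := pair_zero hq (v := (0, 1)) (w := (1, 0)) (by decide) (by decide)
    have q2 := pair_zero hq (v := (1, 2)) (w := (0, 2)) (by decide) (by decide)
    have q3 := pair_zero hq (v := (2, 0)) (w := (2, 1)) (by decide) (by decide)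
    omega

theorem level (I : Finset ι) (a g : ι → ZMod 3) (x : ZMod 3) :
    #(I.filter fun i => g i = x) = #(row I (fun i => (a i, g i)) (0, x)) +
      #(row I (fun i => (a i, g i)) (1, x)) + #(row I (fun i => (a i, g i)) (2, x)) := by
  rw [sum3 (I.filter fun i => g i = x) a]
  have h1 : ∀ y : ZMod 3, (I.filter fun i => g i = x).filter (fun i => a i = y) =
      row I (fun i => (a i, g i)) (y, x) := by
    intro y
    ext i
    simp only [mem_filter, mem_row, Prod.mk.injEq]
    tauto
  rw [h1, h1, h1]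

/-- **points and two lines which are not parallel** -/
theorem f_cross {I : Finset ι} {a b g : ι → ZMod 3} (hf1 : Fr I (fun i => (b i, g i)) a)
    (hf2 : Fr I (fun i => (a i, g i)) b) (α q : ZMod 3)
    (hp : ∀ i ∈ I, ∀ j ∈ I, i ≠ j → (b i, g i) + (b j, g j) + 0 ≠ 0)
    (hq : ∀ i ∈ I, ∀ j ∈ I, i ≠ j → (a i, g i) + (a j, g j) + (α, q) ≠ 0)
    (hs : ∀ i ∈ I, g i + q ≠ 0) : #I ≤ 12 := by
  have s := sum3 I g
  have e0 : ∀ w : ZMod 3, w + q = 0 → #(I.filter fun i => g i = w) = 0 := by
    intro w hw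
    rw [card_eq_zero]
    refine filter_eq_empty_iff.2 fun i hi hiw => hs i hi ?_
    rw [hiw, hw]
  have hq3 : q = 0 ∨ q = 1 ∨ q = 2 := by
    clear hq hs e0
    revert q
    decide
  have hα3 : α = 0 ∨ α = 1 ∨ α = 2 := by
    clear hq hs e0
    revert α
    decide
  have A : ∀ x, #(row I (fun i => (b i, g i)) x) ≤ 4 := fun x => row_le hf1 x
  have B : ∀ x, #(row I (fun i => (a i, g i)) x) ≤ 4 := fun x => row_le hf2 x
  rcases hq3 with rfl | rfl | rfl
  · have f0 := e0 0 (by decide)
    have m1 := level I b g 1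
    have m2 := level I b g 2
    have p1 := pair_zero hp (v := (0, 1)) (w := (0, 2)) (by decide) (by decide)
    have p2 := pair_zero hp (v := (1, 1)) (w := (2, 2)) (by decide) (by decide)
    have p3 := pair_zero hp (v := (2, 1)) (w := (1, 2)) (by decide) (by decide)
    have a1 := A (0, 1)
    have a2 := A (1, 1)
    have a3 := A (2, 1)
    have a4 := A (0, 2)
    have a5 := A (1, 2)
    have a6 := A (2, 2)
    omega
  · have f0 := e0 2 (by decide)
    have m0 := level I b g 0
    have m1 := level I a g 1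
    have p1 := pair_zero hp (v := (1, 0)) (w := (2, 0)) (by decide) (by decide)
    have p2 := self_one hp (v := (0, 0)) (by decide)
    have a1 := A (1, 0)
    have a2 := A (2, 0)
    have b1 := B (0, 1)
    have b2 := B (1, 1)
    have b3 := B (2, 1)
    rcases hα3 with rfl | rfl | rfl
    · have q1 := self_one hq (v := (0, 1)) (by decide)
      have q2 := pair_zero hq (v := (1, 1)) (w := (2, 1)) (by decide) (by decide)
      omega
    · have q1 := self_one hq (v := (1, 1)) (by decide)
      have q2 := pair_zero hq (v := (0, 1)) (w := (2, 1)) (by decide) (by decide)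
      omega
    · have q1 := self_one hq (v := (2, 1)) (by decide)
      have q2 := pair_zero hq (v := (0, 1)) (w := (1, 1)) (by decide) (by decide)
      omega
  · have f0 := e0 1 (by decide)
    have m0 := level I b g 0
    have m1 := level I a g 2
    have p1 := pair_zero hp (v := (1, 0)) (w := (2, 0)) (by decide) (by decide)
    have p2 := self_one hp (v := (0, 0)) (by decide)
    have a1 := A (1, 0)
    have a2 := A (2, 0)
    have b1 := B (0, 2)
    have b2 := B (1, 2)
    have b3 := B (2, 2)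
    rcases hα3 with rfl | rfl | rfl
    · have q1 := self_one hq (v := (0, 2)) (by decide)
      have q2 := pair_zero hq (v := (1, 2)) (w := (2, 2)) (by decide) (by decide)
      omega
    · have q1 := self_one hq (v := (1, 2)) (by decide)
      have q2 := pair_zero hq (v := (0, 2)) (w := (2, 2)) (by decide) (by decide)
      omega
    · have q1 := self_one hq (v := (2, 2)) (by decide)
      have q2 := pair_zero hq (v := (0, 2)) (w := (1, 2)) (by decide) (by decide)
      omega

/-- a plane with a row with two heights: the other lines through the row -/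
theorem f_zero {I : Finset ι} {β : ι → ZMod 3 × ZMod 3} {h : ι → ZMod 3} (hf : Fr I β h)
    {v d : ZMod 3 × ZMod 3} (hd : d ≠ 0) {i j : ι} (hi : i ∈ row I β v) (hj : j ∈ row I β v)
    (hij : h i ≠ h j) (h6 : #(row I β v) + #(row I β (v + d)) + #(row I β (v - d)) ≤ 6) :
    #I ≤ 18 := by
  have K : ∀ w : ZMod 3 × ZMod 3, w ≠ 0 → #(row I β (v + w)) + #(row I β (v - w)) ≤ 4 := by
    intro w hw
    refine kl hf (v₀ := v) ?_ ?_ ?_ ?_ hi hj hij
    · clear h6 hi hj
      revert v w
      decide
    · clear h6 hi hj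
      revert v w
      decide
    · clear h6 hi hj
      revert v w
      decide
    · clear h6 hi hj
      revert v w
      decide
  have pm : ∀ w w' : ZMod 3 × ZMod 3, w + w' = 0 → v + w' = v - w ∧ v - w' = v + w := by
    intro w w' h
    have e : w' = -w := eq_neg_of_add_eq_zero_right h
    rw [e]
    constructor <;> abel
  have s : #I = #(row I β v) + (#(row I β (v + (0, 1))) + #(row I β (v - (0, 1)))) +
      (#(row I β (v + (1, 0))) + #(row I β (v - (1, 0)))) +
      (#(row I β (v + (1, 1))) + #(row I β (v - (1, 1)))) +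
      (#(row I β (v + (1, 2))) + #(row I β (v - (1, 2)))) := by
    have s0 : #I = ∑ w : ZMod 3 × ZMod 3, #(row I β (v + w)) := by
      rw [card_eq_sum_card_fiberwise (s := I) (t := (univ : Finset (ZMod 3 × ZMod 3))) (f := β)
        (fun _ _ => mem_coe.2 (mem_univ _))]
      exact (Equiv.sum_comp (Equiv.addLeft v) fun w => #(row I β w)).symm
    have h1 : ∀ f : ZMod 3 → ℕ, ∑ x, f x = f 0 + f 1 + f 2 := fun f => Fin.sum_univ_three f
    rw [s0, Fintype.sum_prod_type, h1, h1, h1, h1, (pm (0, 1) (0, 2) (by decide)).1,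
      (pm (1, 0) (2, 0) (by decide)).1, (pm (1, 1) (2, 2) (by decide)).1,
      (pm (1, 2) (2, 1) (by decide)).1]
    have e : v + ((0, 0) : ZMod 3 × ZMod 3) = v := add_zero v
    rw [e]
    ring
  have k1 := K (0, 1) (by decide)
  have k2 := K (1, 0) (by decide)
  have k3 := K (1, 1) (by decide)
  have k4 := K (1, 2) (by decide)
  rcases cases9 d with rfl | rfl | rfl | rfl | rfl | rfl | rfl | rfl | rfl
  · exact absurd rfl hd
  · omega
  · rw [(pm (0, 1) (0, 2) (by decide)).1, (pm (0, 1) (0, 2) (by decide)).2] at h6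
    omega
  · omega
  · omega
  · omega
  · rw [(pm (1, 0) (2, 0) (by decide)).1, (pm (1, 0) (2, 0) (by decide)).2] at h6
    omega
  · rw [(pm (1, 2) (2, 1) (by decide)).1, (pm (1, 2) (2, 1) (by decide)).2] at h6
    omega
  · rw [(pm (1, 1) (2, 2) (by decide)).1, (pm (1, 1) (2, 2) (by decide)).2] at h6
    omega

end

end THREEM

end Pool.Agent.Lib.MPa7239a.W2
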