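import Pool.Agent.Lib.MP_a7239a_co.W2.THREE
import Pool.Agent.Lib.MP_a7239a_co.W2.RED

/-!
# W2, module THREEK: points and lines in a three-dimensional space over `F_3`
-/

set_option autoImplicit false
set_option linter.unusedSectionVars false

open Finset

namespace Pool.Agent.Lib.MPa7239a.W2

open THREEM

namespace THREEKM

instance : Fact (Nat.Prime 3) := ⟨Nat.prime_three⟩

/-- coordinates with a given vector -/
theorem coord {m : ℕ} (K P : Type) [AddCommGroup K] [Module (ZMod 3) K] [Finite K]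
    [AddCommGroup P] [Module (ZMod 3) P] [Finite P] (hK : Module.finrank (ZMod 3) K = m + 1)
    (hP : Module.finrank (ZMod 3) P = m) {c : K} (hc : c ≠ 0) :
    ∃ (β : K →ₗ[ZMod 3] P) (ψ : K →ₗ[ZMod 3] ZMod 3), Function.Surjective β ∧ β c = 0 ∧ ψ c = 1 ∧
      ∀ x, β x = 0 → x = ψ x • c := by
  classical
  have := Fintype.ofFinite K
  obtain ⟨ψ, hψ⟩ := AR.HYPM.ev_surjective (p := 3) hc 1
  have hψ1 : ψ c = 1 := hψ
  have hψ0 : ψ ≠ 0 := by
    rintro rfl
    rw [LinearMap.zero_apply] at hψ1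
    exact zero_ne_one hψ1
  have hker := AR.MAINM.finrank_ker hψ0 hK
  let θ : LinearMap.ker ψ ≃ₗ[ZMod 3] P := LinearEquiv.ofFinrankEq _ _ (by rw [hker, hP])
  let Pr : K →ₗ[ZMod 3] LinearMap.ker ψ :=
    LinearMap.codRestrict (LinearMap.ker ψ) (LinearMap.id - ψ.smulRight c) (by
      intro x
      rw [LinearMap.mem_ker]
      simp [hψ1])
  have hPr : ∀ x, ((Pr x : LinearMap.ker ψ) : K) = x - ψ x • c := fun x => by
    simp [Pr]
  refine ⟨θ.toLinearMap ∘ₗ Pr, ψ, ?_, ?_, hψ1, ?_⟩
  · intro y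
    refine ⟨((θ.symm y : LinearMap.ker ψ) : K), ?_⟩
    have h1 : Pr ((θ.symm y : LinearMap.ker ψ) : K) = θ.symm y := by
      apply Subtype.ext
      rw [hPr, LinearMap.mem_ker.1 (θ.symm y).2, zero_smul, sub_zero]
    rw [LinearMap.comp_apply, h1]
    exact θ.apply_symm_apply y
  · have h1 : Pr c = 0 := by
      apply Subtype.ext
      rw [hPr, hψ1, one_smul, sub_self]
      rfl
    rw [LinearMap.comp_apply, h1, map_zero]
  · intro x hx
    have h1 : Pr x = 0 := by
      rw [LinearMap.comp_apply] at hx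
      exact (LinearEquiv.map_eq_zero_iff θ).1 hx
    have h2 := congrArg Subtype.val h1
    rw [hPr] at h2
    exact sub_eq_zero.1 h2

section
variable {K : Type} [AddCommGroup K] [Module (ZMod 3) K] [Finite K]

theorem smul_mem (c : K) (a : ZMod 3) : a • c ∈ AddSubgroup.zmultiples c := by
  have h4 : a • c = a.val • c := by
    conv_lhs => rw [← ZMod.natCast_zmod_val a]
    rw [Nat.cast_smul_eq_nsmul]
  rw [h4]
  exact AddSubgroup.nsmul_mem_zmultiples _ _

theorem three_zero (y : K) : y + y + y = 0 := by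
  have h1 : (3 : ZMod 3) • y = 0 := by
    have : (3 : ZMod 3) = 0 := by decide
    rw [this, zero_smul]
  have h2 : (3 : ZMod 3) • y = y + y + y := by
    have : (3 : ZMod 3) = 1 + 1 + 1 := by decide
    rw [this, add_smul, add_smul, one_smul]
  rw [← h2, h1]

/-- no zero-sum triple -/
def NoT {ι : Type} (I : Finset ι) (u : ι → K) : Prop :=
  ∀ i ∈ I, ∀ j ∈ I, ∀ k ∈ I, i ≠ j → i ≠ k → j ≠ k → u i + u j + u k ≠ 0

/-- translates have no zero-sum triple -/
theorem NoT.fr {ι : Type} [DecidableEq ι] {I : Finset ι} {u : ι → K} (hu : NoT I u) (y : K)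
    (β : K →ₗ[ZMod 3] ZMod 3 × ZMod 3) (ψ : K →ₗ[ZMod 3] ZMod 3)
    (hβ : ∀ x, β x = 0 → ψ x = 0 → x = 0) :
    Fr I (fun i => β (u i - y)) (fun i => ψ (u i - y)) := by
  intro i hi j hj k hk h1 h2 h3 hs hh
  refine hu i hi j hj k hk h1 h2 h3 ?_
  have e : u i - y + (u j - y) + (u k - y) = 0 := by
    apply hβ
    · rw [map_add, map_add, hs]
    · rw [map_add, map_add, hh]
  have e2 : u i + u j + u k = u i - y + (u j - y) + (u k - y) + (y + y + y) := by abel
  rw [e2, e, three_zero, add_zero]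

/-- **points and a line** -/
theorem f1K (hK : Module.finrank (ZMod 3) K = 3) {ι : Type} [DecidableEq ι] {I : Finset ι}
    {u : ι → K} (hu : NoT I u) {y c : K} (hc : c ≠ 0)
    (hp : ∀ i ∈ I, ∀ j ∈ I, i ≠ j → u i + u j + y ∉ AddSubgroup.zmultiples c) : #I ≤ 13 := by
  obtain ⟨β, ψ, -, hβc, hψc, hβ⟩ := coord K (ZMod 3 × ZMod 3) hK (by simp) hc
  refine (f_one (hu.fr y β ψ fun x hx hx' => by rw [hβ x hx, hx', zero_smul]) ?_).1
  intro i hi j hj hij h0
  refine hp i hi j hj hij ?_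
  rw [add_zero, ← map_add] at h0
  have e : u i + u j + y = u i - y + (u j - y) + (y + y + y) := by abel
  rw [e, three_zero, add_zero, hβ _ h0]
  exact smul_mem _ _

/-- **points and two lines** -/
theorem f2K (hK : Module.finrank (ZMod 3) K = 3) {ι : Type} [DecidableEq ι] {I : Finset ι}
    {u : ι → K} (hu : NoT I u) {y₁ c₁ y₂ c₂ : K} (hc₁ : c₁ ≠ 0) (hc₂ : c₂ ≠ 0)
    (hp : ∀ i ∈ I, ∀ j ∈ I, i ≠ j → u i + u j + y₁ ∉ AddSubgroup.zmultiples c₁)
    (hq : ∀ i ∈ I, ∀ j ∈ I, i ≠ j → u i + u j + y₂ ∉ AddSubgroup.zmultiples c₂)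
    (hs : ∀ i ∈ I, u i + y₁ + y₂ ∉ AddSubgroup.zmultiples c₁ ⊔ AddSubgroup.zmultiples c₂) :
    #I ≤ 12 := by
  obtain ⟨β, ψ, -, hβc, hψc, hβ⟩ := coord K (ZMod 3 × ZMod 3) hK (by simp) hc₁
  have hp0 : ∀ i ∈ I, ∀ j ∈ I, i ≠ j → β (u i - y₁) + β (u j - y₁) + 0 ≠ 0 := by
    intro i hi j hj hij h0
    refine hp i hi j hj hij ?_
    rw [add_zero, ← map_add] at h0
    have e : u i + u j + y₁ = u i - y₁ + (u j - y₁) + (y₁ + y₁ + y₁) := by abel
    rw [e, three_zero, add_zero, hβ _ h0]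
    exact smul_mem _ _
  by_cases hpar : β c₂ = 0
  · -- parallel lines
    have hc12 : AddSubgroup.zmultiples c₁ ≤ AddSubgroup.zmultiples c₂ := by
      rw [AddSubgroup.zmultiples_le]
      have h1 := hβ c₂ hpar
      have h2 : ψ c₂ ≠ 0 := by
        intro h
        rw [h, zero_smul] at h1
        exact hc₂ h1
      have h3 : c₁ = (ψ c₂)⁻¹ • c₂ := by
        conv_rhs => rw [h1]
        rw [map_smul, hψc, smul_eq_mul, mul_one, smul_smul, inv_mul_cancel₀ h2, one_smul]
      rw [h3]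
      exact smul_mem _ _
    refine f_two (hu.fr y₁ β ψ fun x hx hx' => by rw [hβ x hx, hx', zero_smul]) hp0
      (β (y₂ - y₁)) ?_ ?_
    · intro i hi j hj hij h0
      refine hq i hi j hj hij (hc12 ?_)
      rw [← map_add, ← map_add] at h0
      have e : u i + u j + y₂ = u i - y₁ + (u j - y₁) + (y₂ - y₁) + (y₁ + y₁ + y₁) := by abel
      rw [e, three_zero, add_zero, hβ _ h0]
      exact smul_mem _ _
    · intro i hi h0
      refine hs i hi (AddSubgroup.mem_sup_left ?_)
      rw [← map_add] at h0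
      have e : u i + y₁ + y₂ = u i - y₁ + (y₂ - y₁) + (y₁ + y₁ + y₁) := by abel
      rw [e, three_zero, add_zero, hβ _ h0]
      exact smul_mem _ _
  · -- not parallel
    obtain ⟨g, b, -, hgw, hbw, hg⟩ := coord (ZMod 3 × ZMod 3) (ZMod 3) (m := 1) (by simp) (by simp)
      hpar
    set G : K →ₗ[ZMod 3] ZMod 3 := g ∘ₗ β with hG
    set Bf : K →ₗ[ZMod 3] ZMod 3 := b ∘ₗ β with hBf
    set A : K →ₗ[ZMod 3] ZMod 3 := ψ - ψ c₂ • Bf with hA
    have hrep : ∀ x, G x = 0 → x = A x • c₁ + Bf x • c₂ := by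
      intro x hx
      have h1 : β x = Bf x • β c₂ := hg (β x) hx
      have h2 : β (x - Bf x • c₂) = 0 := by
        rw [map_sub, map_smul, ← h1, sub_self]
      have h3 := hβ _ h2
      have h4 : ψ (x - Bf x • c₂) = A x := by
        rw [map_sub, map_smul, hA, LinearMap.sub_apply, LinearMap.smul_apply, smul_eq_mul,
          smul_eq_mul, mul_comm]
      rw [h4] at h3
      rw [← h3, sub_add_cancel]
    refine f_cross (a := fun i => A (u i - y₁)) (b := fun i => Bf (u i - y₁))
      (g := fun i => G (u i - y₁)) ?_ ?_ (A (y₂ - y₁)) (G (y₂ - y₁)) ?_ ?_ ?_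
    · have := hu.fr y₁ (LinearMap.prod Bf G) A (fun x hx hx' => by
        have h1 := Prod.mk_eq_zero.1 hx
        rw [hrep x h1.2, hx', h1.1, zero_smul, zero_smul, add_zero])
      exact this
    · have := hu.fr y₁ (LinearMap.prod A G) Bf (fun x hx hx' => by
        have h1 := Prod.mk_eq_zero.1 hx
        rw [hrep x h1.2, hx', h1.1, zero_smul, zero_smul, add_zero])
      exact this
    · intro i hi j hj hij h0
      refine hp i hi j hj hij ?_
      rw [add_zero, Prod.mk_add_mk, Prod.mk_eq_zero, ← map_add, ← map_add] at h0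
      have e : u i + u j + y₁ = u i - y₁ + (u j - y₁) + (y₁ + y₁ + y₁) := by abel
      rw [e, three_zero, add_zero, hrep _ h0.2, h0.1, zero_smul, add_zero]
      exact smul_mem _ _
    · intro i hi j hj hij h0
      refine hq i hi j hj hij ?_
      rw [Prod.mk_add_mk, Prod.mk_add_mk, Prod.mk_eq_zero, ← map_add, ← map_add, ← map_add,
        ← map_add] at h0
      have e : u i + u j + y₂ = u i - y₁ + (u j - y₁) + (y₂ - y₁) + (y₁ + y₁ + y₁) := by abel
      rw [e, three_zero, add_zero, hrep _ h0.2, h0.1, zero_smul, zero_add]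
      exact smul_mem _ _
    · intro i hi h0
      refine hs i hi ?_
      rw [← map_add] at h0
      have e : u i + y₁ + y₂ = u i - y₁ + (y₂ - y₁) + (y₁ + y₁ + y₁) := by abel
      rw [e, three_zero, add_zero, hrep _ h0]
      exact AddSubgroup.add_mem_sup (smul_mem _ _) (smul_mem _ _)

/-- **points only** -/
theorem f0K (hK : Module.finrank (ZMod 3) K = 3) {ι : Type} [DecidableEq ι] {I : Finset ι}
    {u : ι → K} (hu : NoT I u) : #I ≤ 18 := by
  by_contra hcon
  push Not at hcon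
  obtain ⟨I', hI', hc⟩ := exists_subset_card_eq (s := I) (n := 19) (by omega)
  have hu' : NoT I' u := fun i hi j hj k hk => hu i (hI' hi) j (hI' hj) k (hI' hk)
  have hne : ∃ c₀ : K, c₀ ≠ 0 := by
    by_contra h
    push Not at h
    have : Subsingleton K := ⟨fun a b => by rw [h a, h b]⟩
    rw [Module.finrank_zero_of_subsingleton] at hK
    omega
  obtain ⟨c₀, hc₀⟩ := hne
  obtain ⟨β₀, ψ₀, hsur₀, hβc₀, hψc₀, hβ₀⟩ := coord K (ZMod 3 × ZMod 3) hK (by simp) hc₀
  set g : K →ₗ[ZMod 3] ZMod 3 := LinearMap.snd (ZMod 3) (ZMod 3) (ZMod 3) ∘ₗ β₀ with hg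
  set a₀ : K →ₗ[ZMod 3] ZMod 3 := LinearMap.fst (ZMod 3) (ZMod 3) (ZMod 3) ∘ₗ β₀ with ha₀
  have hfr : Fr I' (fun i => (a₀ (u i), g (u i))) (fun i => ψ₀ (u i)) := by
    have h1 : Fr I' (fun i => β₀ (u i)) (fun i => ψ₀ (u i)) := by
      have := hu'.fr 0 β₀ ψ₀ (fun x hx hx' => by rw [hβ₀ x hx, hx', zero_smul])
      simpa using this
    exact h1
  have h8 : ∀ x, #(I'.filter fun i => g (u i) = x) ≤ 8 := by
    intro x
    rw [level I' (fun i => a₀ (u i)) (fun i => g (u i)) x]
    refine plane hfr ?_ ?_ ?_ ?_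
    all_goals
      clear hfr
      revert x
      decide
  have hs3 := sum3 I' (fun i => g (u i))
  have hx : ∃ x, 3 ≤ #(I'.filter fun i => g (u i) = x) ∧ #(I'.filter fun i => g (u i) = x) ≤ 6 := by
    have e0 := h8 0
    have e1 := h8 1
    have e2 := h8 2
    by_contra hno
    push Not at hno
    have n0 := hno 0
    have n1 := hno 1
    have n2 := hno 2
    omega
  obtain ⟨x, hx3, hx6⟩ := hx
  -- two different vectors in the plane
  have h2 : ∃ i ∈ I'.filter (fun i => g (u i) = x), ∃ j ∈ I'.filter (fun i => g (u i) = x),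
      u i ≠ u j := by
    obtain ⟨i, hi, j, hj, k, hk, h1, h2, h3⟩ := exists_three hx3
    by_contra hno
    push Not at hno
    refine hu' i (mem_filter.1 hi).1 j (mem_filter.1 hj).1 k (mem_filter.1 hk).1 h1 h2 h3 ?_
    rw [hno j hj i hi, hno k hk i hi, three_zero]
  obtain ⟨i, hi, j, hj, hij⟩ := h2
  obtain ⟨hiI, hix⟩ := mem_filter.1 hi
  obtain ⟨hjI, hjx⟩ := mem_filter.1 hj
  have hc : u i - u j ≠ 0 := sub_ne_zero.2 hij
  obtain ⟨β, ψ, hsur, hβc, hψc, hβ⟩ := coord K (ZMod 3 × ZMod 3) hK (by simp) hc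
  have hgc : g (u i - u j) = 0 := by rw [map_sub, hix, hjx, sub_self]
  -- a direction in the plane
  obtain ⟨e, he⟩ := hsur₀ (1, 0)
  have hd : ∃ x₀ : K, g x₀ = 0 ∧ β x₀ ≠ 0 := by
    by_contra hno
    push Not at hno
    have g1 : g c₀ = 0 := by
      rw [hg, LinearMap.comp_apply, hβc₀, map_zero]
    have g2 : g e = 0 := by
      rw [hg, LinearMap.comp_apply, he]
      rfl
    have b1 := hβ _ (hno c₀ g1)
    have b2 := hβ _ (hno e g2)
    have b3 : ψ c₀ ≠ 0 := by
      intro h
      rw [h, zero_smul] at b1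
      exact hc₀ b1
    have b4 : u i - u j = (ψ c₀)⁻¹ • c₀ := by
      conv_rhs => rw [b1]
      rw [smul_smul, map_smul, hψc, smul_eq_mul, mul_one, inv_mul_cancel₀ b3, one_smul]
    have b5 : β₀ e = 0 := by
      rw [b2, b4, map_smul, map_smul, hβc₀, smul_zero, smul_zero]
    rw [b5] at he
    have : (0 : ZMod 3 × ZMod 3) ≠ (1, 0) := by decide
    exact this he
  obtain ⟨x₀, hgx₀, hβx₀⟩ := hd
  have hfr2 : Fr I' (fun k => β (u k)) (fun k => ψ (u k)) := by
    have := hu'.fr 0 β ψ (fun x hx hx' => by rw [hβ x hx, hx', zero_smul])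
    simpa using this
  have hv : β (u j) = β (u i) := by
    have h1 := hβc
    rw [map_sub] at h1
    exact (sub_eq_zero.1 h1).symm
  have hrow : ∀ s : ZMod 3, ∀ k ∈ row I' (fun k => β (u k)) (β (u i) + s • β x₀),
      k ∈ I'.filter fun k => g (u k) = x := by
    intro s k hk
    rw [mem_row] at hk
    refine mem_filter.2 ⟨hk.1, ?_⟩
    have h1 : β (u k - u i - s • x₀) = 0 := by
      rw [map_sub, map_sub, map_smul, hk.2]
      abel
    have h2 := congrArg g (hβ _ h1)
    rw [map_smul, hgc, smul_zero, map_sub, map_sub, map_smul, hgx₀, smul_zero, sub_zero] at h2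
    rw [sub_eq_zero.1 h2, hix]
  have hle : #(row I' (fun k => β (u k)) (β (u i))) +
      #(row I' (fun k => β (u k)) (β (u i) + β x₀)) +
      #(row I' (fun k => β (u k)) (β (u i) - β x₀)) ≤ 6 := by
    have d1 : Disjoint (row I' (fun k => β (u k)) (β (u i)))
        (row I' (fun k => β (u k)) (β (u i) + β x₀)) := by
      rw [disjoint_left]
      intro k h1 h2
      rw [mem_row] at h1 h2
      have := h1.2.symm.trans h2.2
      rw [left_eq_add] at this
      exact hβx₀ this
    have d2 : Disjoint (row I' (fun k => β (u k)) (β (u i)) ∪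
        row I' (fun k => β (u k)) (β (u i) + β x₀))
        (row I' (fun k => β (u k)) (β (u i) - β x₀)) := by
      rw [disjoint_left]
      intro k h1 h2
      rw [mem_union, mem_row, mem_row] at h1
      rw [mem_row] at h2
      rcases h1 with h1 | h1
      · have := h1.2.symm.trans h2.2
        rw [eq_comm, sub_eq_self] at this
        exact hβx₀ this
      · have h3 := h1.2.symm.trans h2.2
        have h4 : β x₀ + β x₀ = 0 := by
          have h5 : β (u i) + β x₀ - (β (u i) - β x₀) = 0 := by rw [h3, sub_self]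
          rw [← h5]
          abel
        have h5 := three_v (β x₀)
        rw [h4, zero_add] at h5
        exact hβx₀ h5
    rw [← card_union_of_disjoint d1, ← card_union_of_disjoint d2]
    refine (card_le_card ?_).trans hx6
    intro k hk
    rw [mem_union, mem_union] at hk
    rcases hk with (hk | hk) | hk
    · exact hrow 0 k (by rwa [zero_smul, add_zero])
    · exact hrow 1 k (by rwa [one_smul])
    · exact hrow (-1) k (by rwa [neg_one_smul, ← sub_eq_add_neg])
  have h18 := f_zero hfr2 hβx₀ (i := i) (j := j) (mem_row.2 ⟨hiI, rfl⟩) (mem_row.2 ⟨hjI, hv⟩)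
    (by
      intro h0
      have h1 := hψc
      rw [map_sub, h0, sub_self] at h1
      exact zero_ne_one h1) hle
  omega

end

end THREEKM

end Pool.Agent.Lib.MPa7239a.W2
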